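import Pool.Agent.Work.MP_4eb3f9_an_helper74.T3

/-!
# Block N: no concentration of the vertical energy
-/

open Complex MeasureTheory Filter Topology
open scoped ContDiff

namespace CMA

namespace BN

/-- A smooth bump function: `1` on `PD (1/2) (1/2)`, support in `‖z‖², ‖w‖² ≤ 1/2`. -/
noncomputable def tau (p : ℂ × ℂ) : ℝ :=
  Real.smoothTransition ((1 / 2 - ‖p.1‖ ^ 2) * 4) * Real.smoothTransition ((1 / 2 - ‖p.2‖ ^ 2) * 4)

lemma tau_smooth : ContDiff ℝ ∞ tau := by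
  unfold tau
  exact (Real.smoothTransition.contDiff.comp ((contDiff_const.sub cd_nsq1).mul contDiff_const)).mul
    (Real.smoothTransition.contDiff.comp ((contDiff_const.sub cd_nsq2).mul contDiff_const))

lemma tau_nonneg (p : ℂ × ℂ) : 0 ≤ tau p :=
  mul_nonneg (Real.smoothTransition.nonneg _) (Real.smoothTransition.nonneg _)

lemma tau_one {p : ℂ × ℂ} (hp : p ∈ PD (1 / 2) (1 / 2)) : tau p = 1 := by
  obtain ⟨h1, h2⟩ := hp
  unfold tau
  rw [Real.smoothTransition.one_of_one_le, Real.smoothTransition.one_of_one_le, one_mul]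
  · nlinarith [norm_nonneg p.2]
  · nlinarith [norm_nonneg p.1]

/-- The support of `tau`. -/
def KS : Set (ℂ × ℂ) := {p | ‖p.1‖ ^ 2 ≤ 1 / 2 ∧ ‖p.2‖ ^ 2 ≤ 1 / 2}

lemma KS_closed : IsClosed KS := by
  unfold KS
  exact (isClosed_le ((continuous_norm.comp continuous_fst).pow 2) continuous_const).inter
    (isClosed_le ((continuous_norm.comp continuous_snd).pow 2) continuous_const)

lemma KS_sub : KS ⊆ PD (3 / 4) (3 / 4) := by
  rintro p ⟨h1, h2⟩
  constructor
  · nlinarith [norm_nonneg p.1]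
  · nlinarith [norm_nonneg p.2]

lemma PD_compact (a b : ℝ) : IsCompact (PD a b) := by
  have : PD a b = Metric.closedBall (0 : ℂ) a ×ˢ Metric.closedBall (0 : ℂ) b := by
    ext p; simp [PD]
  rw [this]
  exact (isCompact_closedBall _ _).prod (isCompact_closedBall _ _)

lemma tau_zero {p : ℂ × ℂ} (hp : p ∉ KS) : tau p = 0 := by
  unfold KS at hp
  simp only [Set.mem_ofPred_eq, not_and_or, not_le] at hp
  unfold tau
  rcases hp with hp | hp
  · rw [Real.smoothTransition.zero_of_nonpos, zero_mul]; linarith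
  · rw [mul_comm, Real.smoothTransition.zero_of_nonpos, zero_mul]; linarith

lemma tau_tsupport : tsupport tau ⊆ KS := by
  refine closure_minimal ?_ KS_closed
  intro p hp
  by_contra h
  exact hp (tau_zero h)

lemma tau_cs : HasCompactSupport tau := by
  refine HasCompactSupport.of_support_subset_isCompact (PD_compact (3 / 4) (3 / 4)) ?_
  exact (subset_tsupport _).trans (tau_tsupport.trans KS_sub)

lemma pdY {τ v f : ℂ × ℂ → ℝ} (hτ : ContDiff ℝ ∞ τ) (hv : ContDiff ℝ ∞ v) (hf : ContDiff ℝ ∞ f)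
    (k : Fin 4) (p : ℂ × ℂ) :
    pd k (fun q => τ q * (v q * pd k v q + v q * pd k f q - f q * pd k v q)
      + pd k τ q * (f q * v q - v q * (v q * (1 / 2)))) p
    = τ p * (pd k v p) ^ 2 + τ p * v p * pd k (pd k v) p - (v p) ^ 2 * pd k (pd k τ) p / 2
      + 2 * pd k τ p * v p * pd k f p + τ p * v p * pd k (pd k f) p
      - τ p * f p * pd k (pd k v) p + pd k (pd k τ) p * f p * v p := by
  have a1 := cd_diff hτ
  have a2 := cd_diff hv
  have a3 := cd_diff hf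
  have b1 := cd_diff (cd_pd hτ k)
  have b2 := cd_diff (cd_pd hv k)
  have b3 := cd_diff (cd_pd hf k)
  rw [pd_add_at (f := fun q => τ q * (v q * pd k v q + v q * pd k f q - f q * pd k v q))
      (g := fun q => pd k τ q * (f q * v q - v q * (v q * (1 / 2)))) (by fun_prop) (by fun_prop),
    pd_mul_at (f := τ) (g := fun q => v q * pd k v q + v q * pd k f q - f q * pd k v q)
      (by fun_prop) (by fun_prop),
    pd_mul_at (f := pd k τ) (g := fun q => f q * v q - v q * (v q * (1 / 2)))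
      (by fun_prop) (by fun_prop),
    pd_sub_at (f := fun q => v q * pd k v q + v q * pd k f q) (g := fun q => f q * pd k v q)
      (by fun_prop) (by fun_prop),
    pd_add_at (f := fun q => v q * pd k v q) (g := fun q => v q * pd k f q)
      (by fun_prop) (by fun_prop),
    pd_mul_at (f := v) (g := pd k v) (by fun_prop) (by fun_prop),
    pd_mul_at (f := v) (g := pd k f) (by fun_prop) (by fun_prop),
    pd_mul_at (f := f) (g := pd k v) (by fun_prop) (by fun_prop),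
    pd_sub_at (f := fun q => f q * v q) (g := fun q => v q * (v q * (1 / 2)))
      (by fun_prop) (by fun_prop),
    pd_mul_at (f := f) (g := v) (by fun_prop) (by fun_prop),
    pd_mul_at (f := v) (g := fun q => v q * (1 / 2)) (by fun_prop) (by fun_prop),
    pd_mul_at (f := v) (g := fun _ => 1 / 2) (by fun_prop) (by fun_prop), pd_const]
  ring

/-- `W f = τ f Δ_w f`. -/
noncomputable def Wf (f : ℂ × ℂ → ℝ) (p : ℂ × ℂ) : ℝ := tau p * f p * (4 * hww f p)

/-- The function `X_f = 2 ∇τ·∇f + f Δτ`. -/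
noncomputable def Xf (f : ℂ × ℂ → ℝ) (p : ℂ × ℂ) : ℝ :=
  2 * (pd 2 tau p * pd 2 f p + pd 3 tau p * pd 3 f p) + f p * (4 * hww tau p)

/-- The divergence terms. -/
noncomputable def Yf (f v : ℂ × ℂ → ℝ) (k : Fin 4) (q : ℂ × ℂ) : ℝ :=
  tau q * (v q * pd k v q + v q * pd k f q - f q * pd k v q)
      + pd k tau q * (f q * v q - v q * (v q * (1 / 2)))

lemma pointwise {f v : ℂ × ℂ → ℝ} (hf : ContDiff ℝ ∞ f) (hv : ContDiff ℝ ∞ v) (p : ℂ × ℂ) :
    tau p * (4 * gw v p) = pd 2 (Yf f v 2) p + pd 3 (Yf f v 3) p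
      + (Wf f p - Wf (fun q => f q - v q) p) - 2 * tau p * v p * (4 * hww f p)
      + (v p) ^ 2 * (4 * hww tau p) / 2 - v p * Xf f p := by
  have h2 := pdY tau_smooth hv hf 2 p
  have h3 := pdY tau_smooth hv hf 3 p
  have e2 : pd 2 (Yf f v 2) p = _ := h2
  have e3 : pd 3 (Yf f v 3) p = _ := h3
  rw [e2, e3]
  have hg : hww (fun q => f q - v q) p = hww f p - hww v p := by
    simp only [hww, pd_pd_sub_at hf.contDiffAt hv.contDiffAt]
    ring
  simp only [Wf, hg]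
  simp only [gw, hww, Xf]
  ring

lemma Yf_smooth {f v : ℂ × ℂ → ℝ} (hf : ContDiff ℝ ∞ f) (hv : ContDiff ℝ ∞ v) (k : Fin 4) :
    ContDiff ℝ ∞ (Yf f v k) := by
  unfold Yf
  exact (tau_smooth.mul (((hv.mul (cd_pd hv k)).add (hv.mul (cd_pd hf k))).sub
    (hf.mul (cd_pd hv k)))).add ((cd_pd tau_smooth k).mul ((hf.mul hv).sub
      (hv.mul (hv.mul contDiff_const))))

lemma Yf_cs (f v : ℂ × ℂ → ℝ) (k : Fin 4) : HasCompactSupport (Yf f v k) := by
  have h1 : HasCompactSupport (fun q => tau q * (v q * pd k v q + v q * pd k f q - f q * pd k v q)) :=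
    tau_cs.mul_right
  have h2 : HasCompactSupport (fun q => pd k tau q * (f q * v q - v q * (v q * (1 / 2)))) :=
    (hcs_pd tau_cs k).mul_right
  exact h1.add h2

lemma hww_tau_zero {p : ℂ × ℂ} (hp : p ∉ KS) : hww tau p = 0 := by
  have h : tau =ᶠ[𝓝 p] fun _ => (0 : ℝ) := by
    filter_upwards [KS_closed.isOpen_compl.mem_nhds hp] with q hq
    exact tau_zero hq
  rw [hww_congr h]
  have h2 : ∀ k : Fin 4, pd k (fun _ : ℂ × ℂ => (0 : ℝ)) = fun _ => 0 := by
    intro k; funext q; exact pd_const 0 k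
  simp [hww, h2]

lemma pd_tau_zero {p : ℂ × ℂ} (hp : p ∉ KS) (k : Fin 4) : pd k tau p = 0 :=
  pd_eq_zero_of_nmem k (fun h => hp (tau_tsupport h))

lemma Xf_zero (f : ℂ × ℂ → ℝ) {p : ℂ × ℂ} (hp : p ∉ KS) : Xf f p = 0 := by
  simp [Xf, pd_tau_zero hp, hww_tau_zero hp]

lemma hcs_of_KS {F : ℂ × ℂ → ℝ} (h : ∀ p, p ∉ KS → F p = 0) : HasCompactSupport F := by
  refine HasCompactSupport.of_support_subset_isCompact (PD_compact (3 / 4) (3 / 4)) ?_
  intro p hp
  by_contra hq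
  exact hp (h p (fun h' => hq (KS_sub h')))

lemma exists_bounds : ∃ C2 C3 : ℝ, 0 ≤ C2 ∧ 0 ≤ C3 ∧ (∀ p, |4 * hww tau p| ≤ C2) ∧
    (∀ p, (pd 2 tau p) ^ 2 + (pd 3 tau p) ^ 2 ≤ C3) := by
  have h1 : Continuous (fun p => 4 * hww tau p) := continuous_const.mul (cd_hww tau_smooth).continuous
  have h1s : HasCompactSupport (fun p => 4 * hww tau p) :=
    hcs_of_KS (fun p hp => by simp [hww_tau_zero hp])
  obtain ⟨C2, hC2⟩ := h1s.exists_bound_of_continuous h1
  have h2 : Continuous (fun p => (pd 2 tau p) ^ 2 + (pd 3 tau p) ^ 2) :=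
    ((cd_pd tau_smooth 2).continuous.pow 2).add ((cd_pd tau_smooth 3).continuous.pow 2)
  have h2s : HasCompactSupport (fun p => (pd 2 tau p) ^ 2 + (pd 3 tau p) ^ 2) :=
    hcs_of_KS (fun p hp => by simp [pd_tau_zero hp])
  obtain ⟨C3, hC3⟩ := h2s.exists_bound_of_continuous h2
  refine ⟨C2, C3, (norm_nonneg _).trans (hC2 0), (norm_nonneg _).trans (hC3 0), ?_, ?_⟩
  · intro p; exact hC2 p
  · intro p; exact (le_abs_self _).trans (hC3 p)

lemma cd_Wf {f : ℂ × ℂ → ℝ} (hf : ContDiff ℝ ∞ f) : ContDiff ℝ ∞ (Wf f) :=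
  (tau_smooth.mul hf).mul (contDiff_const.mul (cd_hww hf))

lemma cd_Xf {f : ℂ × ℂ → ℝ} (hf : ContDiff ℝ ∞ f) : ContDiff ℝ ∞ (Xf f) := by
  unfold Xf
  exact (contDiff_const.mul (((cd_pd tau_smooth 2).mul (cd_pd hf 2)).add
    ((cd_pd tau_smooth 3).mul (cd_pd hf 3)))).add
    (hf.mul (contDiff_const.mul (cd_hww tau_smooth)))

/-- The set integral over `PD (3/4) (3/4)` of a function vanishing off `KS`. -/
lemma int_eq_PD {F : ℂ × ℂ → ℝ} (h : ∀ p, p ∉ KS → F p = 0) :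
    ∫ p, F p = ∫ p in PD (3 / 4) (3 / 4), F p := by
  symm
  apply setIntegral_eq_integral_of_forall_compl_eq_zero
  intro p hp
  exact h p (fun h' => hp (KS_sub h'))

lemma PD_meas (a b : ℝ) : MeasurableSet (PD a b) := (PD_compact a b).isClosed.measurableSet

lemma intOn {F : ℂ × ℂ → ℝ} (hF : Continuous F) (a b : ℝ) : IntegrableOn F (PD a b) :=
  hF.continuousOn.integrableOn_compact (PD_compact a b)

/-- The energy inequality. -/
lemma energy_ineq {C2 C3 : ℝ}
    (hb2 : ∀ p, |4 * hww tau p| ≤ C2) (hb3 : ∀ p, (pd 2 tau p) ^ 2 + (pd 3 tau p) ^ 2 ≤ C3)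
    {f g : ℂ × ℂ → ℝ} (hf : ContDiff ℝ ∞ f) (hg : ContDiff ℝ ∞ g) (hfl : ∀ p, 0 ≤ hww f p)
    (hgf : ∀ p ∈ PD (3 / 4) (3 / 4), g p ≤ f p) {η : ℝ} (hη : 0 < η) :
    4 * ∫ p in PD (1 / 2) (1 / 2), gw (fun q => f q - g q) p ≤
      ((-∫ p, Wf g p) - (-∫ p, Wf f p))
        + (η⁻¹ + C2) / 2 * (∫ p in PD (3 / 4) (3 / 4), (f p - g p) ^ 2)
        + η / 2 * (32 * C3 * (∫ p in PD (3 / 4) (3 / 4), gw f p)
            + 2 * C2 ^ 2 * ∫ p in PD (3 / 4) (3 / 4), f p ^ 2) := by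
  set v : ℂ × ℂ → ℝ := fun q => f q - g q with hvdef
  have hv : ContDiff ℝ ∞ v := hf.sub hg
  have hgv : (fun q => f q - v q) = g := by funext q; simp [hvdef]
  -- pointwise
  have hpw : ∀ p, tau p * (4 * gw v p) ≤ pd 2 (Yf f v 2) p + pd 3 (Yf f v 3) p
      + (Wf f p - Wf g p) + ((v p) ^ 2 * (4 * hww tau p) / 2 - v p * Xf f p) := by
    intro p
    have h := pointwise hf hv p
    rw [hgv] at h
    have h2 : 0 ≤ 2 * tau p * v p * (4 * hww f p) := by
      by_cases hp : p ∈ KS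
      · have : 0 ≤ v p := sub_nonneg.2 (hgf p (KS_sub hp))
        have := tau_nonneg p
        have := hfl p
        positivity
      · simp [tau_zero hp]
    linarith
  have hYi : ∀ k, Integrable (pd k (Yf f v k)) := fun k =>
    integrable_of_cs (cd_pd (Yf_smooth hf hv k) k).continuous (hcs_pd (Yf_cs f v k) k)
  have hWi : ∀ h : ℂ × ℂ → ℝ, ContDiff ℝ ∞ h → Integrable (Wf h) := fun h hh =>
    integrable_of_cs (cd_Wf hh).continuous (hcs_of_KS fun p hp => by simp [Wf, tau_zero hp])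
  set R : ℂ × ℂ → ℝ := fun p => (v p) ^ 2 * (4 * hww tau p) / 2 - v p * Xf f p with hR
  have hRz : ∀ p, p ∉ KS → R p = 0 := fun p hp => by simp [hR, hww_tau_zero hp, Xf_zero f hp]
  have hRc : Continuous R :=
    (((hv.continuous.pow 2).mul (continuous_const.mul (cd_hww tau_smooth).continuous)).div_const
      2).sub (hv.continuous.mul (cd_Xf hf).continuous)
  have hRi : Integrable R := integrable_of_cs hRc (hcs_of_KS hRz)
  have hLi : Integrable (fun p => tau p * (4 * gw v p)) :=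
    integrable_of_cs (tau_smooth.continuous.mul (continuous_const.mul (cd_gw hv).continuous))
      (hcs_of_KS fun p hp => by simp [tau_zero hp])
  have hint : ∫ p, tau p * (4 * gw v p) ≤ ((-∫ p, Wf g p) - (-∫ p, Wf f p)) + ∫ p, R p := by
    have h1 : ∫ p, tau p * (4 * gw v p) ≤ ∫ p, ((pd 2 (Yf f v 2) p + pd 3 (Yf f v 3) p)
      + (Wf f p - Wf g p) + R p) :=
      integral_mono hLi ((((hYi 2).add (hYi 3)).add ((hWi f hf).sub (hWi g hg))).add hRi) hpw
    have i1 : Integrable (fun p => pd 2 (Yf f v 2) p + pd 3 (Yf f v 3) p) := (hYi 2).add (hYi 3)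
    have i2 : Integrable (fun p => Wf f p - Wf g p) := (hWi f hf).sub (hWi g hg)
    have i3 : Integrable (fun p => (pd 2 (Yf f v 2) p + pd 3 (Yf f v 3) p)
      + (Wf f p - Wf g p)) := i1.add i2
    rw [integral_add i3 hRi, integral_add i1 i2,
      integral_add (hYi 2) (hYi 3), integral_sub (hWi f hf) (hWi g hg),
      integral_pd_eq_zero (Yf_smooth hf hv 2) (Yf_cs f v 2),
      integral_pd_eq_zero (Yf_smooth hf hv 3) (Yf_cs f v 3)] at h1
    linarith
  have hRb : ∫ p, R p ≤ (η⁻¹ + C2) / 2 * (∫ p in PD (3 / 4) (3 / 4), (v p) ^ 2)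
        + η / 2 * (32 * C3 * (∫ p in PD (3 / 4) (3 / 4), gw f p)
            + 2 * C2 ^ 2 * ∫ p in PD (3 / 4) (3 / 4), f p ^ 2) := by
    rw [int_eq_PD hRz]
    have hpt : ∀ p, R p ≤ (η⁻¹ + C2) / 2 * (v p) ^ 2 + η / 2 * (32 * C3 * gw f p
        + 2 * C2 ^ 2 * f p ^ 2) := by
      intro p
      have h1 : (v p) ^ 2 * (4 * hww tau p) / 2 ≤ C2 / 2 * (v p) ^ 2 := by
        have := (abs_le.1 (hb2 p)).2
        nlinarith [sq_nonneg (v p)]
      have h2 : -(v p * Xf f p) ≤ η⁻¹ / 2 * (v p) ^ 2 + η / 2 * (Xf f p) ^ 2 := by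
        have hq : 0 ≤ η⁻¹ / 2 * (v p + η * Xf f p) ^ 2 := by positivity
        have : η⁻¹ / 2 * (v p + η * Xf f p) ^ 2
            = η⁻¹ / 2 * (v p) ^ 2 + η / 2 * (Xf f p) ^ 2 + v p * Xf f p := by
          field_simp; ring
        linarith
      have h3 : (Xf f p) ^ 2 ≤ 32 * C3 * gw f p + 2 * C2 ^ 2 * f p ^ 2 := by
        have hA : (pd 2 tau p * pd 2 f p + pd 3 tau p * pd 3 f p) ^ 2 ≤ C3 * (4 * gw f p) := by
          have hcs : (pd 2 tau p * pd 2 f p + pd 3 tau p * pd 3 f p) ^ 2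
              ≤ ((pd 2 tau p) ^ 2 + (pd 3 tau p) ^ 2) * ((pd 2 f p) ^ 2 + (pd 3 f p) ^ 2) := by
            nlinarith [sq_nonneg (pd 2 tau p * pd 3 f p - pd 3 tau p * pd 2 f p)]
          have : (pd 2 f p) ^ 2 + (pd 3 f p) ^ 2 = 4 * gw f p := by unfold gw; ring
          rw [this] at hcs
          exact hcs.trans (mul_le_mul_of_nonneg_right (hb3 p) (by
            have := gw_nonneg f p; positivity))
        have hB : (f p * (4 * hww tau p)) ^ 2 ≤ C2 ^ 2 * f p ^ 2 := by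
          have : (4 * hww tau p) ^ 2 ≤ C2 ^ 2 := by
            rw [← sq_abs]
            exact pow_le_pow_left₀ (abs_nonneg _) (hb2 p) 2
          rw [mul_pow]
          nlinarith [sq_nonneg (f p)]
        unfold Xf
        nlinarith [sq_nonneg (2 * (pd 2 tau p * pd 2 f p + pd 3 tau p * pd 3 f p)
          - f p * (4 * hww tau p))]
      have h4 : η / 2 * (Xf f p) ^ 2 ≤ η / 2 * (32 * C3 * gw f p + 2 * C2 ^ 2 * f p ^ 2) := by
        gcongr
      have : R p = (v p) ^ 2 * (4 * hww tau p) / 2 + (-(v p * Xf f p)) := by simp [hR]; ring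
      rw [this]
      linarith
    have hi1 : IntegrableOn (fun p => (v p) ^ 2) (PD (3 / 4) (3 / 4)) :=
      intOn (hv.continuous.pow 2) _ _
    have hi2 : IntegrableOn (fun p => gw f p) (PD (3 / 4) (3 / 4)) :=
      intOn (cd_gw hf).continuous _ _
    have hi3 : IntegrableOn (fun p => f p ^ 2) (PD (3 / 4) (3 / 4)) :=
      intOn (hf.continuous.pow 2) _ _
    have hm : ∫ p in PD (3 / 4) (3 / 4), R p ≤ ∫ p in PD (3 / 4) (3 / 4),
        ((η⁻¹ + C2) / 2 * (v p) ^ 2 + η / 2 * (32 * C3 * gw f p + 2 * C2 ^ 2 * f p ^ 2)) :=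
      integral_mono hRi.integrableOn ((hi1.const_mul _).add
        (((hi2.const_mul _).add (hi3.const_mul _)).const_mul _)) hpt
    have j1 : IntegrableOn (fun p => (η⁻¹ + C2) / 2 * (v p) ^ 2) (PD (3 / 4) (3 / 4)) :=
      hi1.const_mul _
    have j2 : IntegrableOn (fun p => 32 * C3 * gw f p) (PD (3 / 4) (3 / 4)) := hi2.const_mul _
    have j3 : IntegrableOn (fun p => 2 * C2 ^ 2 * f p ^ 2) (PD (3 / 4) (3 / 4)) := hi3.const_mul _
    have j4 : IntegrableOn (fun p => 32 * C3 * gw f p + 2 * C2 ^ 2 * f p ^ 2)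
      (PD (3 / 4) (3 / 4)) := j2.add j3
    have j5 : IntegrableOn (fun p => η / 2 * (32 * C3 * gw f p + 2 * C2 ^ 2 * f p ^ 2))
      (PD (3 / 4) (3 / 4)) := j4.const_mul _
    rw [integral_add j1 j5, integral_const_mul, integral_const_mul, integral_add j2 j3,
      integral_const_mul, integral_const_mul] at hm
    exact hm
  have hlow : 4 * ∫ p in PD (1 / 2) (1 / 2), gw v p ≤ ∫ p, tau p * (4 * gw v p) := by
    rw [← integral_const_mul]
    have h1 : ∫ p in PD (1 / 2) (1 / 2), 4 * gw v p = ∫ p in PD (1 / 2) (1 / 2),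
        tau p * (4 * gw v p) := by
      refine setIntegral_congr_fun (PD_meas _ _) fun p hp => ?_
      simp [tau_one hp]
    rw [h1]
    refine setIntegral_le_integral hLi (Filter.Eventually.of_forall fun p => ?_)
    have := tau_nonneg p
    have := gw_nonneg v p
    simp only [Pi.zero_apply]
    positivity
  linarith

lemma tau_le_one (p : ℂ × ℂ) : tau p ≤ 1 := by
  unfold tau
  exact mul_le_one₀ (Real.smoothTransition.le_one _) (Real.smoothTransition.nonneg _)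
    (Real.smoothTransition.le_one _)

/-- `-∫ τ g Δg` is bounded above. -/
lemma b_upper {C2 : ℝ} (hb2 : ∀ p, |4 * hww tau p| ≤ C2)
    {g : ℂ × ℂ → ℝ} (hg : ContDiff ℝ ∞ g) :
    -∫ p, Wf g p ≤ 4 * (∫ p in PD (3 / 4) (3 / 4), gw g p)
      + C2 / 2 * ∫ p in PD (3 / 4) (3 / 4), g p ^ 2 := by
  set f : ℂ × ℂ → ℝ := fun _ => 0 with hfdef
  set v : ℂ × ℂ → ℝ := fun q => - g q with hvdef
  have hf : ContDiff ℝ ∞ f := contDiff_const
  have hv : ContDiff ℝ ∞ v := hg.neg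
  have hgv : (fun q => f q - v q) = g := by funext q; simp [hvdef, hfdef]
  have hgw : ∀ p, gw v p = gw g p := by
    intro p
    simp only [gw, hvdef, pd_neg]
    ring
  have hWf0 : ∀ p, Wf f p = 0 := fun p => by simp [Wf, hfdef]
  have hXf0 : ∀ p, Xf f p = 0 := fun p => by simp [Xf, hfdef, pd_const]
  have hpw : ∀ p, -Wf g p = (tau p * (4 * gw g p) - (g p) ^ 2 * (4 * hww tau p) / 2)
      - (pd 2 (Yf f v 2) p + pd 3 (Yf f v 3) p) := by
    intro p
    have h := pointwise hf hv p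
    rw [hgv, hgw, hWf0, hXf0] at h
    have h2 : hww f p = 0 := by
      have h2 : ∀ k : Fin 4, pd k (fun _ : ℂ × ℂ => (0 : ℝ)) = fun _ => 0 := by
        intro k; funext q; exact pd_const 0 k
      simp [hfdef, hww, h2]
    rw [h2] at h
    have h3 : v p ^ 2 = g p ^ 2 := by simp [hvdef]
    rw [h3] at h
    linarith
  have hYi : ∀ k, Integrable (pd k (Yf f v k)) := fun k =>
    integrable_of_cs (cd_pd (Yf_smooth hf hv k) k).continuous (hcs_pd (Yf_cs f v k) k)
  set R : ℂ × ℂ → ℝ := fun p => tau p * (4 * gw g p) - (g p) ^ 2 * (4 * hww tau p) / 2 with hR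
  have hRz : ∀ p, p ∉ KS → R p = 0 := fun p hp => by simp [hR, hww_tau_zero hp, tau_zero hp]
  have hRc : Continuous R :=
    (tau_smooth.continuous.mul (continuous_const.mul (cd_gw hg).continuous)).sub
    (((hg.continuous.pow 2).mul (continuous_const.mul (cd_hww tau_smooth).continuous)).div_const 2)
  have hRi : Integrable R := integrable_of_cs hRc (hcs_of_KS hRz)
  have i1 : Integrable (fun p => pd 2 (Yf f v 2) p + pd 3 (Yf f v 3) p) := (hYi 2).add (hYi 3)
  have h1 : -∫ p, Wf g p = ∫ p, R p := by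
    rw [← integral_neg]
    simp_rw [hpw]
    have : ∫ p, (R p - (pd 2 (Yf f v 2) p + pd 3 (Yf f v 3) p)) = ∫ p, R p := by
      rw [integral_sub hRi i1, integral_add (hYi 2) (hYi 3),
        integral_pd_eq_zero (Yf_smooth hf hv 2) (Yf_cs f v 2),
        integral_pd_eq_zero (Yf_smooth hf hv 3) (Yf_cs f v 3)]
      ring
    exact this
  rw [h1, int_eq_PD hRz]
  have hpt : ∀ p, R p ≤ 4 * gw g p + C2 / 2 * (g p) ^ 2 := by
    intro p
    have h1 : -((g p) ^ 2 * (4 * hww tau p) / 2) ≤ C2 / 2 * (g p) ^ 2 := by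
      have := (abs_le.1 (hb2 p)).1
      nlinarith [sq_nonneg (g p)]
    have h2 : tau p * (4 * gw g p) ≤ 4 * gw g p := by
      have := gw_nonneg g p
      have := tau_le_one p
      nlinarith
    simp only [hR]
    linarith
  have hi2 : IntegrableOn (fun p => gw g p) (PD (3 / 4) (3 / 4)) :=
    intOn (cd_gw hg).continuous _ _
  have hi3 : IntegrableOn (fun p => g p ^ 2) (PD (3 / 4) (3 / 4)) :=
    intOn (hg.continuous.pow 2) _ _
  have j2 : IntegrableOn (fun p => 4 * gw g p) (PD (3 / 4) (3 / 4)) := hi2.const_mul _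
  have j3 : IntegrableOn (fun p => C2 / 2 * g p ^ 2) (PD (3 / 4) (3 / 4)) := hi3.const_mul _
  have hm : ∫ p in PD (3 / 4) (3 / 4), R p ≤ ∫ p in PD (3 / 4) (3 / 4),
      (4 * gw g p + C2 / 2 * (g p) ^ 2) :=
    integral_mono hRi.integrableOn (j2.add j3) hpt
  rw [integral_add j2 j3, integral_const_mul, integral_const_mul] at hm
  exact hm

end BN

open BN

theorem stmt_N : Stmt_N := by
  intro S C hS hSp ε hε
  obtain ⟨C2, C3, hC2, hC3, hb2, hb3⟩ := exists_bounds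
  set A : (ℂ × ℂ → ℝ) → ℝ := fun f => ∫ p in PD (3 / 4) (3 / 4), f p ^ 2 with hA
  set B : (ℂ × ℂ → ℝ) → ℝ := fun f => -∫ p, Wf f p with hB
  have hA0 : ∀ f, 0 ≤ A f := fun f => integral_nonneg fun p => sq_nonneg _
  have hC : 0 ≤ C := by
    obtain ⟨f, hf⟩ := hS
    exact (hA0 f).trans (hSp f hf).2.2.2.1
  have hAb : ∀ f ∈ S, A f ≤ C := fun f hf => (hSp f hf).2.2.2.1
  have hBb : ∀ f ∈ S, B f ≤ 4 * C + C2 / 2 * C := by
    intro f hf
    have h := b_upper hb2 (hSp f hf).1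
    have h1 := (hSp f hf).2.2.2.1
    have h2 := (hSp f hf).2.2.2.2
    have h3 : C2 / 2 * (∫ p in PD (3 / 4) (3 / 4), f p ^ 2) ≤ C2 / 2 * C := by gcongr
    simp only [hB]
    linarith
  set C1 : ℝ := 32 * C3 * C + 2 * C2 ^ 2 * C with hC1
  have hC1' : 0 ≤ C1 := by positivity
  set η : ℝ := ε / (C1 + 1) with hη
  have hηp : 0 < η := by positivity
  set ε1 : ℝ := ε / (η⁻¹ + C2 + 1) with hε1
  have hε1p : 0 < ε1 := by positivity
  -- choice of `f1`
  have hSA : (A '' S).Nonempty := hS.image A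
  have hSAb : BddAbove (A '' S) := ⟨C, by rintro _ ⟨f, hf, rfl⟩; exact hAb f hf⟩
  obtain ⟨_, ⟨f1, hf1, rfl⟩, hf1'⟩ := exists_lt_of_lt_csSup hSA
    (show sSup (A '' S) - ε1 < sSup (A '' S) by linarith)
  -- choice of `f0`
  set S1 : Set (ℂ × ℂ → ℝ) := {g | g ∈ S ∧ ∀ p ∈ PD (3 / 4) (3 / 4), g p ≤ f1 p} with hS1
  have hS1n : (B '' S1).Nonempty := ⟨B f1, f1, ⟨hf1, fun p _ => le_rfl⟩, rfl⟩
  have hS1b : BddAbove (B '' S1) := ⟨_, by rintro _ ⟨f, hf, rfl⟩; exact hBb f hf.1⟩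
  obtain ⟨_, ⟨f0, hf0, rfl⟩, hf0'⟩ := exists_lt_of_lt_csSup hS1n
    (show sSup (B '' S1) - ε < sSup (B '' S1) by linarith)
  refine ⟨f0, hf0.1, ?_⟩
  intro g hg hgf
  have hgS1 : g ∈ S1 := ⟨hg, fun p hp => (hgf p hp).trans (hf0.2 p hp)⟩
  have hBg : B g ≤ sSup (B '' S1) := le_csSup hS1b ⟨g, hgS1, rfl⟩
  have hAg : A g ≤ sSup (A '' S) := le_csSup hSAb ⟨g, hg, rfl⟩
  obtain ⟨hf0s, hf0l, hf0n, hf0A, hf0G⟩ := hSp f0 hf0.1
  obtain ⟨hgs, hgl, hgn, hgA, hgG⟩ := hSp g hg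
  obtain ⟨hf1s, hf1l, hf1n, hf1A, hf1G⟩ := hSp f1 hf1
  have hA01 : A f1 ≤ A f0 := by
    refine setIntegral_mono_on (intOn (hf1s.continuous.pow 2) _ _)
      (intOn (hf0s.continuous.pow 2) _ _) (PD_meas _ _) fun p hp => ?_
    have h1 := hf0.2 p hp
    have h2 := hf1n p hp
    nlinarith
  have hdiff : ∫ p in PD (3 / 4) (3 / 4), (f0 p - g p) ^ 2 ≤ A g - A f0 := by
    simp only [hA]
    have k1 : IntegrableOn (fun p => g p ^ 2) (PD (3 / 4) (3 / 4)) :=
      intOn (hgs.continuous.pow 2) _ _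
    have k2 : IntegrableOn (fun p => f0 p ^ 2) (PD (3 / 4) (3 / 4)) :=
      intOn (hf0s.continuous.pow 2) _ _
    rw [← integral_sub k1 k2]
    refine setIntegral_mono_on (intOn ((hf0s.continuous.sub hgs.continuous).pow 2) _ _)
      (intOn ((hgs.continuous.pow 2).sub (hf0s.continuous.pow 2)) _ _) (PD_meas _ _) fun p hp => ?_
    have h1 := hgf p hp
    have h2 := hf0n p hp
    nlinarith
  have hdiff' : ∫ p in PD (3 / 4) (3 / 4), (f0 p - g p) ^ 2 ≤ ε1 := by linarith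
  have hE := energy_ineq hb2 hb3 hf0s hgs hf0l hgf hηp
  have h1 : (η⁻¹ + C2) / 2 * (∫ p in PD (3 / 4) (3 / 4), (f0 p - g p) ^ 2) ≤ ε / 2 := by
    calc (η⁻¹ + C2) / 2 * (∫ p in PD (3 / 4) (3 / 4), (f0 p - g p) ^ 2)
        ≤ (η⁻¹ + C2) / 2 * ε1 := by gcongr
      _ = (η⁻¹ + C2) / (η⁻¹ + C2 + 1) * (ε / 2) := by rw [hε1]; ring
      _ ≤ 1 * (ε / 2) := by
        gcongr
        rw [div_le_one (by positivity)]
        linarith
      _ = ε / 2 := one_mul _
  have h2 : η / 2 * (32 * C3 * (∫ p in PD (3 / 4) (3 / 4), gw f0 p)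
            + 2 * C2 ^ 2 * ∫ p in PD (3 / 4) (3 / 4), f0 p ^ 2) ≤ ε / 2 := by
    calc η / 2 * (32 * C3 * (∫ p in PD (3 / 4) (3 / 4), gw f0 p)
            + 2 * C2 ^ 2 * ∫ p in PD (3 / 4) (3 / 4), f0 p ^ 2)
        ≤ η / 2 * (32 * C3 * C + 2 * C2 ^ 2 * C) := by gcongr
      _ = C1 / (C1 + 1) * (ε / 2) := by rw [hη, hC1]; ring
      _ ≤ 1 * (ε / 2) := by
        gcongr
        rw [div_le_one (by positivity)]
        linarith
      _ = ε / 2 := one_mul _
  have h3 : (-∫ p, Wf g p) - (-∫ p, Wf f0 p) ≤ ε := by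
    have : B g - B f0 ≤ ε := by linarith
    simpa [hB] using this
  linarith

end CMA
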