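import Pool.Agent.Work.MP_4eb3f9_an.Basic

/-!
# Block T2: local plurisubharmonicity of `f + m (g - f)`
-/

open Complex MeasureTheory Filter Topology
open scoped ContDiff

namespace CMA

/-- The cone condition: `A, B ≥ 0`, `A B ≥ P² + Q²`. -/
def PosQ (A B P Q : ℝ) : Prop := 0 ≤ A ∧ 0 ≤ B ∧ 0 ≤ A * B - P ^ 2 - Q ^ 2

lemma PosQ.smul {A B P Q : ℝ} (h : PosQ A B P Q) {t : ℝ} (ht : 0 ≤ t) :
    PosQ (t * A) (t * B) (t * P) (t * Q) := by
  obtain ⟨h1, h2, h3⟩ := h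
  refine ⟨mul_nonneg ht h1, mul_nonneg ht h2, ?_⟩
  have : t * A * (t * B) - (t * P) ^ 2 - (t * Q) ^ 2 = t ^ 2 * (A * B - P ^ 2 - Q ^ 2) := by ring
  rw [this]
  positivity

lemma PosQ.add {A B P Q A' B' P' Q' : ℝ} (h : PosQ A B P Q) (h' : PosQ A' B' P' Q') :
    PosQ (A + A') (B + B') (P + P') (Q + Q') := by
  obtain ⟨h1, h2, h3⟩ := h
  obtain ⟨h1', h2', h3'⟩ := h'
  refine ⟨add_nonneg h1 h1', add_nonneg h2 h2', ?_⟩
  have key : 2 * (P * P' + Q * Q') ≤ A * B' + A' * B := by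
    have hAB : P ^ 2 + Q ^ 2 ≤ A * B := by linarith
    have hAB' : P' ^ 2 + Q' ^ 2 ≤ A' * B' := by linarith
    have hcs : (P * P' + Q * Q') ^ 2 ≤ (P ^ 2 + Q ^ 2) * (P' ^ 2 + Q' ^ 2) := by
      nlinarith [sq_nonneg (P * Q' - Q * P')]
    have hprod : (P ^ 2 + Q ^ 2) * (P' ^ 2 + Q' ^ 2) ≤ (A * B) * (A' * B') :=
      mul_le_mul hAB hAB' (by positivity) (by positivity)
    have hsq : (2 * (P * P' + Q * Q')) ^ 2 ≤ (A * B' + A' * B) ^ 2 := by
      nlinarith [sq_nonneg (A * B' - A' * B)]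
    exact abs_le_of_sq_le_sq' hsq (by positivity) |>.2
  nlinarith

lemma PosQ.rankOne (a b c d : ℝ) :
    PosQ ((a ^ 2 + b ^ 2) / 4) ((c ^ 2 + d ^ 2) / 4) ((a * c + b * d) / 4)
      ((a * d - b * c) / 4) := by
  refine ⟨by positivity, by positivity, ?_⟩
  have : (a ^ 2 + b ^ 2) / 4 * ((c ^ 2 + d ^ 2) / 4) - ((a * c + b * d) / 4) ^ 2
      - ((a * d - b * c) / 4) ^ 2 = 0 := by ring
  rw [this]

lemma lpos_iff_posQ (f : ℂ × ℂ → ℝ) (p : ℂ × ℂ) :
    LPos f p ↔ PosQ (hzz f p) (hww f p) (hP f p) (hQ f p) := Iff.rfl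

/-- Second derivatives of a composition, local version. -/
lemma pd_pd_comp_at {c : ℝ → ℝ} {h : ℂ × ℂ → ℝ} {p : ℂ × ℂ} (hc : ContDiffAt ℝ ∞ c (h p))
    (hh : ContDiffAt ℝ ∞ h p) (j k : Fin 4) :
    pd j (pd k (fun q => c (h q))) p
      = deriv (deriv c) (h p) * (pd j h p * pd k h p) + deriv c (h p) * pd j (pd k h) p := by
  have hev : pd k (fun q => c (h q)) =ᶠ[𝓝 p] fun q => deriv c (h q) * pd k h q := by
    have h1 : ∀ᶠ q in 𝓝 p, ContDiffAt ℝ 1 h q :=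
      (hh.of_le (m := 1) (by norm_num)).eventually (by simp)
    have h2 : ∀ᶠ y in 𝓝 (h p), ContDiffAt ℝ 1 c y :=
      (hc.of_le (m := 1) (by norm_num)).eventually (by simp)
    have h3 : ∀ᶠ q in 𝓝 p, ContDiffAt ℝ 1 c (h q) := hh.continuousAt.eventually h2
    filter_upwards [h1, h3] with q hq1 hq2
    exact pd_comp_at (hq2.differentiableAt (by simp)) (hq1.differentiableAt (by simp)) k
  have hdc : ContDiffAt ℝ ∞ (deriv c) (h p) := by
    have : ContDiffAt ℝ ∞ (fderiv ℝ c) (h p) := hc.fderiv_right (m := ∞) (by simp)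
    have h2 : deriv c = fun y => fderiv ℝ c y 1 := by
      funext y; simp
    rw [h2]
    exact this.clm_apply contDiffAt_const
  rw [(pd_congr hev j).eq_of_nhds, pd_mul_at (f := fun q => deriv c (h q))]
  · rw [pd_comp_at (hdc.differentiableAt (by simp)) (cdAt_diff hh)]
    ring
  · exact (hdc.comp p hh).differentiableAt (by simp)
  · exact cdAt_diff (cdAt_pd hh k)

lemma pd_pd_add_at {f h : ℂ × ℂ → ℝ} {p : ℂ × ℂ} (hf : ContDiffAt ℝ ∞ f p)
    (hh : ContDiffAt ℝ ∞ h p) (j k : Fin 4) :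
    pd j (pd k (fun q => f q + h q)) p = pd j (pd k f) p + pd j (pd k h) p := by
  have hev : pd k (fun q => f q + h q) =ᶠ[𝓝 p] fun q => pd k f q + pd k h q := by
    have h1 : ∀ᶠ q in 𝓝 p, ContDiffAt ℝ 1 f q :=
      (hf.of_le (m := 1) (by norm_num)).eventually (by simp)
    have h2 : ∀ᶠ q in 𝓝 p, ContDiffAt ℝ 1 h q :=
      (hh.of_le (m := 1) (by norm_num)).eventually (by simp)
    filter_upwards [h1, h2] with q hq1 hq2
    exact pd_add_at (hq1.differentiableAt (by simp)) (hq2.differentiableAt (by simp)) k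
  rw [(pd_congr hev j).eq_of_nhds]
  exact pd_add_at (cdAt_diff (cdAt_pd hf k)) (cdAt_diff (cdAt_pd hh k)) j

lemma pd_pd_sub_at {f h : ℂ × ℂ → ℝ} {p : ℂ × ℂ} (hf : ContDiffAt ℝ ∞ f p)
    (hh : ContDiffAt ℝ ∞ h p) (j k : Fin 4) :
    pd j (pd k (fun q => f q - h q)) p = pd j (pd k f) p - pd j (pd k h) p := by
  have hev : pd k (fun q => f q - h q) =ᶠ[𝓝 p] fun q => pd k f q - pd k h q := by
    have h1 : ∀ᶠ q in 𝓝 p, ContDiffAt ℝ 1 f q :=
      (hf.of_le (m := 1) (by norm_num)).eventually (by simp)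
    have h2 : ∀ᶠ q in 𝓝 p, ContDiffAt ℝ 1 h q :=
      (hh.of_le (m := 1) (by norm_num)).eventually (by simp)
    filter_upwards [h1, h2] with q hq1 hq2
    exact pd_sub_at (hq1.differentiableAt (by simp)) (hq2.differentiableAt (by simp)) k
  rw [(pd_congr hev j).eq_of_nhds]
  exact pd_sub_at (cdAt_diff (cdAt_pd hf k)) (cdAt_diff (cdAt_pd hh k)) j

theorem stmt_T2 : Stmt_T2 := by
  intro m f g p hm hm0 hm1 hm2 hf hg hfp hgp
  set h : ℂ × ℂ → ℝ := fun q => g q - f q with hdef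
  have hh : ContDiffAt ℝ ∞ h p := hg.sub hf
  have hmh : ContDiffAt ℝ ∞ (fun q => m (h q)) p := hm.contDiffAt.comp p hh
  have key : ∀ j k : Fin 4, pd j (pd k (fun q => f q + m (h q))) p
      = (1 - deriv m (h p)) * pd j (pd k f) p + deriv m (h p) * pd j (pd k g) p
        + deriv (deriv m) (h p) * (pd j h p * pd k h p) := by
    intro j k
    rw [pd_pd_add_at hf hmh, pd_pd_comp_at hm.contDiffAt hh, pd_pd_sub_at hg hf]
    ring
  have h1 : PosQ (hzz f p) (hww f p) (hP f p) (hQ f p) := hfp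
  have h2 : PosQ (hzz g p) (hww g p) (hP g p) (hQ g p) := hgp
  have h3 := PosQ.rankOne (pd 0 h p) (pd 1 h p) (pd 2 h p) (pd 3 h p)
  have hs := ((h1.smul (t := 1 - deriv m (h p)) (by linarith [hm1 (h p)])).add
    (h2.smul (hm0 (h p)))).add (h3.smul (hm2 (h p)))
  have e : PosQ (hzz (fun q => f q + m (h q)) p) (hww (fun q => f q + m (h q)) p)
      (hP (fun q => f q + m (h q)) p) (hQ (fun q => f q + m (h q)) p) := by
    convert hs using 1
    · simp only [hzz, key]; ring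
    · simp only [hww, key]; ring
    · simp only [hP, key]; ring
    · simp only [hQ, key]; ring
  exact e

end CMA
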