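import Pool.Agent.Work.MP_4eb3f9_an_helper74.T2

/-!
# Block T3: standard plurisubharmonic functions
-/

open Complex MeasureTheory Filter Topology
open scoped ContDiff

namespace CMA

/-! ### Quadratic form criterion -/

lemma posQ_of_form {A B P Q : ℝ}
    (h : ∀ a b : ℂ, 0 ≤ A * ‖a‖ ^ 2 + B * ‖b‖ ^ 2 +
      2 * (((P : ℂ) + (Q : ℂ) * I) * a * (starRingEnd ℂ) b).re) : PosQ A B P Q := by
  have hA : 0 ≤ A := by simpa using h 1 0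
  have hB : 0 ≤ B := by simpa using h 0 1
  refine ⟨hA, hB, ?_⟩
  have key : ∀ t s : ℝ, 0 ≤ A * t ^ 2 + B * s ^ 2 * (P ^ 2 + Q ^ 2) - 2 * t * s * (P ^ 2 + Q ^ 2) := by
    intro t s
    have := h t (-(s : ℂ) * ((P : ℂ) + (Q : ℂ) * I))
    have e1 : ‖(t : ℂ)‖ ^ 2 = t ^ 2 := by simp
    have e2 : ‖-(s : ℂ) * ((P : ℂ) + (Q : ℂ) * I)‖ ^ 2 = s ^ 2 * (P ^ 2 + Q ^ 2) := by
      rw [← normSq_eq_norm_sq]
      simp [normSq_apply]
      ring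
    have e3 : ((((P : ℂ) + (Q : ℂ) * I) * t * (starRingEnd ℂ) (-(s : ℂ) * ((P : ℂ) + (Q : ℂ) * I))).re)
        = - t * s * (P ^ 2 + Q ^ 2) := by
      simp
      ring
    rw [e1, e2, e3] at this
    linarith
  rcases hB.lt_or_eq with hB' | hB'
  · have := key B 1
    have h2 : 0 ≤ B * (A * B - (P ^ 2 + Q ^ 2)) := by nlinarith
    have := nonneg_of_mul_nonneg_right h2 hB'
    linarith
  · subst_vars
    have h1 : ∀ s : ℝ, 0 ≤ A - 2 * s * (P ^ 2 + Q ^ 2) := by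
      intro s
      have := key 1 s
      simpa using this
    have h2 : P ^ 2 + Q ^ 2 = 0 := by
      by_contra hne
      have hpos : 0 < P ^ 2 + Q ^ 2 := lt_of_le_of_ne (by positivity) (Ne.symm hne)
      have := h1 ((A + 1) / (2 * (P ^ 2 + Q ^ 2)))
      rw [show A - 2 * ((A + 1) / (2 * (P ^ 2 + Q ^ 2))) * (P ^ 2 + Q ^ 2) = -1 by
        field_simp; ring] at this
      linarith
    nlinarith

/-! ### Coordinates -/

lemma cd_coord_re1 : ContDiff ℝ ∞ (fun p : ℂ × ℂ => p.1.re) :=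
  Complex.reCLM.contDiff.comp contDiff_fst

lemma cd_coord_im1 : ContDiff ℝ ∞ (fun p : ℂ × ℂ => p.1.im) :=
  Complex.imCLM.contDiff.comp contDiff_fst

lemma cd_coord_re2 : ContDiff ℝ ∞ (fun p : ℂ × ℂ => p.2.re) :=
  Complex.reCLM.contDiff.comp contDiff_snd

lemma cd_coord_im2 : ContDiff ℝ ∞ (fun p : ℂ × ℂ => p.2.im) :=
  Complex.imCLM.contDiff.comp contDiff_snd

lemma pd_clm (L : ℂ × ℂ →L[ℝ] ℝ) (k : Fin 4) (p : ℂ × ℂ) : pd k (fun q => L q) p = L (dir k) := by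
  unfold pd
  rw [L.fderiv]

lemma pd_re1 (k : Fin 4) (p : ℂ × ℂ) :
    pd k (fun q : ℂ × ℂ => q.1.re) p = (dir k).1.re :=
  pd_clm (Complex.reCLM.comp (ContinuousLinearMap.fst ℝ ℂ ℂ)) k p

lemma pd_im1 (k : Fin 4) (p : ℂ × ℂ) :
    pd k (fun q : ℂ × ℂ => q.1.im) p = (dir k).1.im :=
  pd_clm (Complex.imCLM.comp (ContinuousLinearMap.fst ℝ ℂ ℂ)) k p

lemma pd_re2 (k : Fin 4) (p : ℂ × ℂ) :
    pd k (fun q : ℂ × ℂ => q.2.re) p = (dir k).2.re :=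
  pd_clm (Complex.reCLM.comp (ContinuousLinearMap.snd ℝ ℂ ℂ)) k p

lemma pd_im2 (k : Fin 4) (p : ℂ × ℂ) :
    pd k (fun q : ℂ × ℂ => q.2.im) p = (dir k).2.im :=
  pd_clm (Complex.imCLM.comp (ContinuousLinearMap.snd ℝ ℂ ℂ)) k p

@[simp] lemma dir_zero : dir 0 = (1, 0) := rfl
@[simp] lemma dir_one : dir 1 = (Complex.I, 0) := rfl
@[simp] lemma dir_two : dir 2 = (0, 1) := rfl
@[simp] lemma dir_three : dir 3 = (0, Complex.I) := rfl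

/-! ### Squared norms -/

lemma normsq1 (p : ℂ × ℂ) : ‖p.1‖ ^ 2 = p.1.re * p.1.re + p.1.im * p.1.im := by
  rw [← normSq_eq_norm_sq, normSq_apply]

lemma normsq2 (p : ℂ × ℂ) : ‖p.2‖ ^ 2 = p.2.re * p.2.re + p.2.im * p.2.im := by
  rw [← normSq_eq_norm_sq, normSq_apply]

lemma cd_nsq1 : ContDiff ℝ ∞ (fun p : ℂ × ℂ => ‖p.1‖ ^ 2) := by
  simp_rw [normsq1]
  exact (cd_coord_re1.mul cd_coord_re1).add (cd_coord_im1.mul cd_coord_im1)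

lemma cd_nsq2 : ContDiff ℝ ∞ (fun p : ℂ × ℂ => ‖p.2‖ ^ 2) := by
  simp_rw [normsq2]
  exact (cd_coord_re2.mul cd_coord_re2).add (cd_coord_im2.mul cd_coord_im2)

lemma pd_nsq1 (k : Fin 4) : pd k (fun p : ℂ × ℂ => ‖p.1‖ ^ 2) =
    fun p => 2 * (p.1.re * (dir k).1.re + p.1.im * (dir k).1.im) := by
  funext p
  simp_rw [normsq1]
  rw [pd_add_at (cd_diff (cd_coord_re1.mul cd_coord_re1) p)
    (cd_diff (cd_coord_im1.mul cd_coord_im1) p),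
    pd_mul_at (cd_diff cd_coord_re1 p) (cd_diff cd_coord_re1 p),
    pd_mul_at (cd_diff cd_coord_im1 p) (cd_diff cd_coord_im1 p), pd_re1, pd_im1]
  ring

lemma pd_nsq2 (k : Fin 4) : pd k (fun p : ℂ × ℂ => ‖p.2‖ ^ 2) =
    fun p => 2 * (p.2.re * (dir k).2.re + p.2.im * (dir k).2.im) := by
  funext p
  simp_rw [normsq2]
  rw [pd_add_at (cd_diff (cd_coord_re2.mul cd_coord_re2) p)
    (cd_diff (cd_coord_im2.mul cd_coord_im2) p),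
    pd_mul_at (cd_diff cd_coord_re2 p) (cd_diff cd_coord_re2 p),
    pd_mul_at (cd_diff cd_coord_im2 p) (cd_diff cd_coord_im2 p), pd_re2, pd_im2]
  ring

lemma pd_lin (c d : ℝ) (g h : ℂ × ℂ → ℝ) (hg : ContDiff ℝ ∞ g) (hh : ContDiff ℝ ∞ h) (j : Fin 4)
    (p : ℂ × ℂ) : pd j (fun p => 2 * (g p * c + h p * d)) p = 2 * (pd j g p * c + pd j h p * d) := by
  rw [pd_const_mul_at (f := fun p => g p * c + h p * d) 2
    (cd_diff ((hg.mul contDiff_const).add (hh.mul contDiff_const)) p) j,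
    pd_add_at (cd_diff (hg.mul contDiff_const) p) (cd_diff (hh.mul contDiff_const) p),
    pd_mul_at (cd_diff hg p) (differentiableAt_const _),
    pd_mul_at (cd_diff hh p) (differentiableAt_const _), pd_const, pd_const]
  ring

lemma pd_pd_nsq1 (j k : Fin 4) (p : ℂ × ℂ) : pd j (pd k (fun p : ℂ × ℂ => ‖p.1‖ ^ 2)) p =
    2 * ((dir j).1.re * (dir k).1.re + (dir j).1.im * (dir k).1.im) := by
  rw [pd_nsq1, pd_lin _ _ (fun p : ℂ × ℂ => p.1.re) (fun p : ℂ × ℂ => p.1.im)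
    cd_coord_re1 cd_coord_im1, pd_re1, pd_im1]

lemma pd_pd_nsq2 (j k : Fin 4) (p : ℂ × ℂ) : pd j (pd k (fun p : ℂ × ℂ => ‖p.2‖ ^ 2)) p =
    2 * ((dir j).2.re * (dir k).2.re + (dir j).2.im * (dir k).2.im) := by
  rw [pd_nsq2, pd_lin _ _ (fun p : ℂ × ℂ => p.2.re) (fun p : ℂ × ℂ => p.2.im)
    cd_coord_re2 cd_coord_im2, pd_re2, pd_im2]

lemma pd_pd_add_const {f : ℂ × ℂ → ℝ} (c : ℝ) (j k : Fin 4) (p : ℂ × ℂ) :
    pd j (pd k (fun q => f q + c)) p = pd j (pd k f) p := by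
  have : pd k (fun q => f q + c) = pd k f := by
    funext q; simp [pd]
  rw [this]

lemma pd_pd_sub_const {f : ℂ × ℂ → ℝ} (c : ℝ) (j k : Fin 4) (p : ℂ × ℂ) :
    pd j (pd k (fun q => f q - c)) p = pd j (pd k f) p := by
  simp_rw [sub_eq_add_neg]
  exact pd_pd_add_const (-c) j k p

/-! ### Holomorphic functions -/

section holo

variable {F : ℂ × ℂ → ℂ}

/-- The holomorphic partial derivative in direction `v`. -/
noncomputable def cd (v : ℂ × ℂ) (F : ℂ × ℂ → ℂ) : ℂ × ℂ → ℂ := fun q => fderiv ℂ F q v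

lemma contDiff_cd (hF : ContDiff ℂ ∞ F) (v : ℂ × ℂ) : ContDiff ℂ ∞ (cd v F) := by
  unfold cd
  exact (hF.fderiv_right (m := ∞) (by simp)).clm_apply contDiff_const

lemma fderiv_restrict (hF : ContDiff ℂ ∞ F) (q v : ℂ × ℂ) : fderiv ℝ F q v = fderiv ℂ F q v := by
  have h := (hF.differentiable (by simp) q).fderiv_restrictScalars ℝ
  rw [h]; rfl

lemma cdR {F : ℂ × ℂ → ℂ} (hF : ContDiff ℂ ∞ F) : ContDiff ℝ ∞ F := hF.restrict_scalars ℝ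

lemma cd_re {F : ℂ × ℂ → ℂ} (hF : ContDiff ℂ ∞ F) : ContDiff ℝ ∞ (fun q => (F q).re) :=
  Complex.reCLM.contDiff.comp (cdR hF)

lemma cd_im {F : ℂ × ℂ → ℂ} (hF : ContDiff ℂ ∞ F) : ContDiff ℝ ∞ (fun q => (F q).im) :=
  Complex.imCLM.contDiff.comp (cdR hF)

lemma pd_re (hF : ContDiff ℂ ∞ F) (k : Fin 4) (q : ℂ × ℂ) :
    pd k (fun q => (F q).re) q = (fderiv ℂ F q (dir k)).re := by
  unfold pd
  have h1 : HasFDerivAt F (fderiv ℝ F q) q := ((cdR hF).differentiable (by simp) q).hasFDerivAt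
  have h2 := (Complex.reCLM.hasFDerivAt (x := F q)).comp q h1
  have h3 : fderiv ℝ (fun q => (F q).re) q = Complex.reCLM.comp (fderiv ℝ F q) := h2.fderiv
  rw [h3, ← fderiv_restrict hF]
  rfl

lemma pd_im (hF : ContDiff ℂ ∞ F) (k : Fin 4) (q : ℂ × ℂ) :
    pd k (fun q => (F q).im) q = (fderiv ℂ F q (dir k)).im := by
  unfold pd
  have h1 : HasFDerivAt F (fderiv ℝ F q) q := ((cdR hF).differentiable (by simp) q).hasFDerivAt
  have h2 := (Complex.imCLM.hasFDerivAt (x := F q)).comp q h1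
  have h3 : fderiv ℝ (fun q => (F q).im) q = Complex.imCLM.comp (fderiv ℝ F q) := h2.fderiv
  rw [h3, ← fderiv_restrict hF]
  rfl

lemma fderiv_I1 (q : ℂ × ℂ) : fderiv ℂ F q ((I, 0) : ℂ × ℂ) = I * fderiv ℂ F q ((1, 0) : ℂ × ℂ) := by
  have : ((I, 0) : ℂ × ℂ) = I • ((1, 0) : ℂ × ℂ) := by simp
  rw [this, map_smul, smul_eq_mul]

lemma fderiv_I2 (q : ℂ × ℂ) : fderiv ℂ F q ((0, I) : ℂ × ℂ) = I * fderiv ℂ F q ((0, 1) : ℂ × ℂ) := by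
  have : ((0, I) : ℂ × ℂ) = I • ((0, 1) : ℂ × ℂ) := by simp
  rw [this, map_smul, smul_eq_mul]

lemma pd0_re (hF : ContDiff ℂ ∞ F) : pd 0 (fun q => (F q).re) = fun q => (cd (1, 0) F q).re := by
  funext q; rw [pd_re hF]; rfl
lemma pd1_re (hF : ContDiff ℂ ∞ F) : pd 1 (fun q => (F q).re) = fun q => -(cd (1, 0) F q).im := by
  funext q; rw [pd_re hF]; simp [cd, fderiv_I1]
lemma pd2_re (hF : ContDiff ℂ ∞ F) : pd 2 (fun q => (F q).re) = fun q => (cd (0, 1) F q).re := by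
  funext q; rw [pd_re hF]; rfl
lemma pd3_re (hF : ContDiff ℂ ∞ F) : pd 3 (fun q => (F q).re) = fun q => -(cd (0, 1) F q).im := by
  funext q; rw [pd_re hF]; simp [cd, fderiv_I2]
lemma pd0_im (hF : ContDiff ℂ ∞ F) : pd 0 (fun q => (F q).im) = fun q => (cd (1, 0) F q).im := by
  funext q; rw [pd_im hF]; rfl
lemma pd1_im (hF : ContDiff ℂ ∞ F) : pd 1 (fun q => (F q).im) = fun q => (cd (1, 0) F q).re := by
  funext q; rw [pd_im hF]; simp [cd, fderiv_I1]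
lemma pd2_im (hF : ContDiff ℂ ∞ F) : pd 2 (fun q => (F q).im) = fun q => (cd (0, 1) F q).im := by
  funext q; rw [pd_im hF]; rfl
lemma pd3_im (hF : ContDiff ℂ ∞ F) : pd 3 (fun q => (F q).im) = fun q => (cd (0, 1) F q).re := by
  funext q; rw [pd_im hF]; simp [cd, fderiv_I2]

lemma hess_re_zero (hF : ContDiff ℂ ∞ F) (p : ℂ × ℂ) :
    hzz (fun q => (F q).re) p = 0 ∧ hww (fun q => (F q).re) p = 0 ∧
    hP (fun q => (F q).re) p = 0 ∧ hQ (fun q => (F q).re) p = 0 := by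
  have h1 := contDiff_cd hF (1, 0)
  have h2 := contDiff_cd hF (0, 1)
  simp only [hzz, hww, hP, hQ, pd0_re hF, pd1_re hF, pd2_re hF, pd3_re hF, pd_neg', pd0_re h1,
    pd1_im h1, pd2_re h2, pd3_im h2, pd0_re h2, pd1_im h2, pd0_im h2, pd1_re h2]
  refine ⟨by ring, by ring, by ring, by ring⟩

lemma hess_im_zero (hF : ContDiff ℂ ∞ F) (p : ℂ × ℂ) :
    hzz (fun q => (F q).im) p = 0 ∧ hww (fun q => (F q).im) p = 0 ∧
    hP (fun q => (F q).im) p = 0 ∧ hQ (fun q => (F q).im) p = 0 := by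
  have h1 := contDiff_cd hF (1, 0)
  have h2 := contDiff_cd hF (0, 1)
  simp only [hzz, hww, hP, hQ, pd0_im hF, pd1_im hF, pd2_im hF, pd3_im hF, pd0_im h1,
    pd1_re h1, pd2_im h2, pd3_re h2, pd0_im h2, pd1_re h2, pd0_re h2, pd1_im h2]
  refine ⟨by ring, by ring, by ring, by ring⟩

end holo

/-! ### Hessian of sums and products -/

lemma pd_pd_mul {f g : ℂ × ℂ → ℝ} (hf : ContDiff ℝ ∞ f) (hg : ContDiff ℝ ∞ g) (j k : Fin 4)
    (p : ℂ × ℂ) : pd j (pd k (fun q => f q * g q)) p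
      = f p * pd j (pd k g) p + g p * pd j (pd k f) p + pd j f p * pd k g p + pd j g p * pd k f p := by
  rw [pd_mul hf hg k, pd_add_at (cd_diff (hf.mul (cd_pd hg k)) p) (cd_diff (hg.mul (cd_pd hf k)) p),
    pd_mul_at (cd_diff hf p) (cd_diff (cd_pd hg k) p),
    pd_mul_at (cd_diff hg p) (cd_diff (cd_pd hf k) p)]
  ring

lemma pd_sum {ι : Type*} (s : Finset ι) (f : ι → ℂ × ℂ → ℝ) (hf : ∀ i, ContDiff ℝ ∞ (f i))
    (k : Fin 4) : pd k (fun q => ∑ i ∈ s, f i q) = fun q => ∑ i ∈ s, pd k (f i) q := by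
  funext q
  unfold pd
  rw [fderiv_fun_sum (fun i _ => cd_diff (hf i) q)]
  simp

lemma pd_pd_sum {ι : Type*} (s : Finset ι) (f : ι → ℂ × ℂ → ℝ) (hf : ∀ i, ContDiff ℝ ∞ (f i))
    (j k : Fin 4) (p : ℂ × ℂ) :
    pd j (pd k (fun q => ∑ i ∈ s, f i q)) p = ∑ i ∈ s, pd j (pd k (f i)) p := by
  rw [pd_sum s f hf k, pd_sum s (fun i => pd k (f i)) (fun i => cd_pd (hf i) k) j]

/-! ### Logarithms -/

lemma pd_slog (s : ℝ) {K : ℂ × ℂ → ℝ} (hK : ContDiff ℝ ∞ K) (hpos : ∀ q, 0 < K q) (j k : Fin 4)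
    (p : ℂ × ℂ) : pd j (pd k (fun q => s * Real.log (K q))) p
      = s * ((K p)⁻¹ * pd j (pd k K) p - ((K p) ^ 2)⁻¹ * (pd j K p * pd k K p)) := by
  have hc : ContDiffAt ℝ ∞ (fun x => s * Real.log x) (K p) :=
    contDiffAt_const.mul (Real.contDiffAt_log.2 (hpos p).ne')
  rw [pd_pd_comp_at (c := fun x => s * Real.log x) hc hK.contDiffAt]
  have hd : deriv (fun x => s * Real.log x) = fun x => s * x⁻¹ := by
    funext x
    rw [deriv_const_mul_field, Real.deriv_log]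
  have hdd : deriv (fun x => s * x⁻¹) (K p) = s * (-((K p) ^ 2)⁻¹) := by
    rw [deriv_const_mul_field, deriv_inv]
  rw [hd, hdd]
  ring

lemma cd_slog (s : ℝ) {K : ℂ × ℂ → ℝ} (hK : ContDiff ℝ ∞ K) (hpos : ∀ q, 0 < K q) :
    ContDiff ℝ ∞ (fun q => s * Real.log (K q)) :=
  contDiff_const.mul (hK.log (fun q => (hpos q).ne'))

lemma hess_slog (s : ℝ) {K : ℂ × ℂ → ℝ} (hK : ContDiff ℝ ∞ K) (hpos : ∀ q, 0 < K q) (p : ℂ × ℂ) :
    hzz (fun q => s * Real.log (K q)) p =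
      s * ((K p)⁻¹ * hzz K p - ((K p) ^ 2)⁻¹ * ((pd 0 K p ^ 2 + pd 1 K p ^ 2) / 4)) ∧
    hww (fun q => s * Real.log (K q)) p =
      s * ((K p)⁻¹ * hww K p - ((K p) ^ 2)⁻¹ * ((pd 2 K p ^ 2 + pd 3 K p ^ 2) / 4)) ∧
    hP (fun q => s * Real.log (K q)) p =
      s * ((K p)⁻¹ * hP K p - ((K p) ^ 2)⁻¹ * ((pd 0 K p * pd 2 K p + pd 1 K p * pd 3 K p) / 4)) ∧
    hQ (fun q => s * Real.log (K q)) p =
      s * ((K p)⁻¹ * hQ K p - ((K p) ^ 2)⁻¹ * ((pd 0 K p * pd 3 K p - pd 1 K p * pd 2 K p) / 4)) := by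
  simp only [hzz, hww, hP, hQ, pd_slog s hK hpos]
  refine ⟨by ring, by ring, by ring, by ring⟩

theorem T3_log (r : ℝ) (hr : 0 < r) :
    SPsh (fun p : ℂ × ℂ => Real.log (‖p.2‖ ^ 2 + r ^ 2) / 2) ∧
    ∀ p : ℂ × ℂ, hww (fun p : ℂ × ℂ => Real.log (‖p.2‖ ^ 2 + r ^ 2) / 2) p
        = r ^ 2 / (2 * (‖p.2‖ ^ 2 + r ^ 2) ^ 2) ∧
      hzz (fun p : ℂ × ℂ => Real.log (‖p.2‖ ^ 2 + r ^ 2) / 2) p = 0 ∧
      hP (fun p : ℂ × ℂ => Real.log (‖p.2‖ ^ 2 + r ^ 2) / 2) p = 0 ∧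
      hQ (fun p : ℂ × ℂ => Real.log (‖p.2‖ ^ 2 + r ^ 2) / 2) p = 0 := by
  have e : (fun p : ℂ × ℂ => Real.log (‖p.2‖ ^ 2 + r ^ 2) / 2)
      = fun p : ℂ × ℂ => (1 / 2 : ℝ) * Real.log (‖p.2‖ ^ 2 + r ^ 2) := by
    funext p; ring
  have hK : ContDiff ℝ ∞ (fun p : ℂ × ℂ => ‖p.2‖ ^ 2 + r ^ 2) := cd_nsq2.add contDiff_const
  have hpos : ∀ q : ℂ × ℂ, 0 < ‖q.2‖ ^ 2 + r ^ 2 := fun q => by positivity
  have hpd : ∀ (k : Fin 4) (p : ℂ × ℂ), pd k (fun p : ℂ × ℂ => ‖p.2‖ ^ 2 + r ^ 2) p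
      = 2 * (p.2.re * (dir k).2.re + p.2.im * (dir k).2.im) := by
    intro k p
    have : pd k (fun p : ℂ × ℂ => ‖p.2‖ ^ 2 + r ^ 2) = pd k (fun p : ℂ × ℂ => ‖p.2‖ ^ 2) := by
      funext q; simp [pd]
    rw [this, pd_nsq2]
  have key : ∀ p : ℂ × ℂ, hww (fun p : ℂ × ℂ => Real.log (‖p.2‖ ^ 2 + r ^ 2) / 2) p
        = r ^ 2 / (2 * (‖p.2‖ ^ 2 + r ^ 2) ^ 2) ∧
      hzz (fun p : ℂ × ℂ => Real.log (‖p.2‖ ^ 2 + r ^ 2) / 2) p = 0 ∧
      hP (fun p : ℂ × ℂ => Real.log (‖p.2‖ ^ 2 + r ^ 2) / 2) p = 0 ∧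
      hQ (fun p : ℂ × ℂ => Real.log (‖p.2‖ ^ 2 + r ^ 2) / 2) p = 0 := by
    intro p
    rw [e]
    obtain ⟨h1, h2, h3, h4⟩ := hess_slog (1 / 2) hK hpos p
    rw [h1, h2, h3, h4]
    simp only [hzz, hww, hP, hQ, pd_pd_add_const, pd_pd_nsq2, hpd, dir_zero, dir_one, dir_two,
      dir_three]
    have hne : ‖p.2‖ ^ 2 + r ^ 2 ≠ 0 := (hpos p).ne'
    refine ⟨?_, ?_, ?_, ?_⟩
    · field_simp
      have := normsq2 p
      simp
      nlinarith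
    · simp
    · simp
    · simp
  refine ⟨⟨?_, ?_⟩, key⟩
  · rw [e]; exact cd_slog _ hK hpos
  · intro p
    obtain ⟨h1, h2, h3, h4⟩ := key p
    refine ⟨by rw [h2], ?_, ?_⟩
    · rw [h1]; positivity
    · unfold dH
      rw [h2, h3, h4]; simp

theorem T3_sq : SPsh (fun p : ℂ × ℂ => ‖p.1‖ ^ 2 - 1) ∧ SPsh (fun p : ℂ × ℂ => ‖p.2‖ ^ 2 - 1) ∧
    ∀ p : ℂ × ℂ, hzz (fun p : ℂ × ℂ => ‖p.1‖ ^ 2 - 1) p = 1 ∧
      hww (fun p : ℂ × ℂ => ‖p.1‖ ^ 2 - 1) p = 0 ∧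
      hP (fun p : ℂ × ℂ => ‖p.1‖ ^ 2 - 1) p = 0 ∧ hQ (fun p : ℂ × ℂ => ‖p.1‖ ^ 2 - 1) p = 0 := by
  have key : ∀ p : ℂ × ℂ, hzz (fun p : ℂ × ℂ => ‖p.1‖ ^ 2 - 1) p = 1 ∧
      hww (fun p : ℂ × ℂ => ‖p.1‖ ^ 2 - 1) p = 0 ∧
      hP (fun p : ℂ × ℂ => ‖p.1‖ ^ 2 - 1) p = 0 ∧ hQ (fun p : ℂ × ℂ => ‖p.1‖ ^ 2 - 1) p = 0 := by
    intro p
    simp only [hzz, hww, hP, hQ, pd_pd_sub_const, pd_pd_nsq1, dir_zero, dir_one, dir_two,
      dir_three]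
    refine ⟨by norm_num, by norm_num, by norm_num, by norm_num⟩
  have key2 : ∀ p : ℂ × ℂ, hzz (fun p : ℂ × ℂ => ‖p.2‖ ^ 2 - 1) p = 0 ∧
      hww (fun p : ℂ × ℂ => ‖p.2‖ ^ 2 - 1) p = 1 ∧
      hP (fun p : ℂ × ℂ => ‖p.2‖ ^ 2 - 1) p = 0 ∧ hQ (fun p : ℂ × ℂ => ‖p.2‖ ^ 2 - 1) p = 0 := by
    intro p
    simp only [hzz, hww, hP, hQ, pd_pd_sub_const, pd_pd_nsq2, dir_zero, dir_one, dir_two,
      dir_three]
    refine ⟨by norm_num, by norm_num, by norm_num, by norm_num⟩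
  refine ⟨⟨cd_nsq1.sub contDiff_const, fun p => ?_⟩, ⟨cd_nsq2.sub contDiff_const, fun p => ?_⟩, key⟩
  · obtain ⟨h1, h2, h3, h4⟩ := key p
    refine ⟨by rw [h1]; norm_num, by rw [h2], ?_⟩
    unfold dH; rw [h1, h2, h3, h4]; norm_num
  · obtain ⟨h1, h2, h3, h4⟩ := key2 p
    refine ⟨by rw [h1], by rw [h2]; norm_num, ?_⟩
    unfold dH; rw [h1, h2, h3, h4]; norm_num

/-! ### `log (ε + ∑ |F_j|²)` -/

section logsum

variable {N : ℕ} {F : Fin N → ℂ × ℂ → ℂ}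

lemma nsq_reim (z : ℂ) : ‖z‖ ^ 2 = z.re * z.re + z.im * z.im := by
  rw [← normSq_eq_norm_sq, normSq_apply]

lemma nsq_lin (a b x y : ℂ) : ‖a * x + b * y‖ ^ 2
    = ‖a‖ ^ 2 * ‖x‖ ^ 2 + ‖b‖ ^ 2 * ‖y‖ ^ 2 + 2 * ((a * (starRingEnd ℂ) b) * x * (starRingEnd ℂ) y).re := by
  simp only [nsq_reim]
  simp
  ring

lemma cd_K (ε : ℝ) (hF : ∀ j, ContDiff ℂ ∞ (F j)) :
    ContDiff ℝ ∞ (fun p => ε + ∑ j, ‖F j p‖ ^ 2) := by
  simp_rw [nsq_reim]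
  refine contDiff_const.add (ContDiff.sum fun j _ => ?_)
  exact ((cd_re (hF j)).mul (cd_re (hF j))).add ((cd_im (hF j)).mul (cd_im (hF j)))

lemma pd_K (ε : ℝ) (hF : ∀ j, ContDiff ℂ ∞ (F j)) (k : Fin 4) (p : ℂ × ℂ) :
    pd k (fun p => ε + ∑ j, ‖F j p‖ ^ 2) p
      = ∑ j, 2 * ((F j p).re * pd k (fun q => (F j q).re) p
        + (F j p).im * pd k (fun q => (F j q).im) p) := by
  simp_rw [nsq_reim]
  have h : ∀ j, ContDiff ℝ ∞ (fun q => (F j q).re * (F j q).re + (F j q).im * (F j q).im) :=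
    fun j => ((cd_re (hF j)).mul (cd_re (hF j))).add ((cd_im (hF j)).mul (cd_im (hF j)))
  have e1 : pd k (fun p => ε + ∑ j, ((F j p).re * (F j p).re + (F j p).im * (F j p).im))
      = pd k (fun p => ∑ j, ((F j p).re * (F j p).re + (F j p).im * (F j p).im)) := by
    funext q; simp [pd]
  rw [e1, pd_sum _ _ h]
  refine Finset.sum_congr rfl fun j _ => ?_
  rw [pd_add_at (cd_diff ((cd_re (hF j)).mul (cd_re (hF j))) p)
    (cd_diff ((cd_im (hF j)).mul (cd_im (hF j))) p),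
    pd_mul_at (cd_diff (cd_re (hF j)) p) (cd_diff (cd_re (hF j)) p),
    pd_mul_at (cd_diff (cd_im (hF j)) p) (cd_diff (cd_im (hF j)) p)]
  ring

lemma pd_pd_K (ε : ℝ) (hF : ∀ j, ContDiff ℂ ∞ (F j)) (i k : Fin 4) (p : ℂ × ℂ) :
    pd i (pd k (fun p => ε + ∑ j, ‖F j p‖ ^ 2)) p
      = ∑ j, 2 * ((F j p).re * pd i (pd k (fun q => (F j q).re)) p
        + (F j p).im * pd i (pd k (fun q => (F j q).im)) p
        + pd i (fun q => (F j q).re) p * pd k (fun q => (F j q).re) p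
        + pd i (fun q => (F j q).im) p * pd k (fun q => (F j q).im) p) := by
  simp_rw [nsq_reim]
  have h : ∀ j, ContDiff ℝ ∞ (fun q => (F j q).re * (F j q).re + (F j q).im * (F j q).im) :=
    fun j => ((cd_re (hF j)).mul (cd_re (hF j))).add ((cd_im (hF j)).mul (cd_im (hF j)))
  have e1 : pd k (fun p => ε + ∑ j, ((F j p).re * (F j p).re + (F j p).im * (F j p).im))
      = pd k (fun p => ∑ j, ((F j p).re * (F j p).re + (F j p).im * (F j p).im)) := by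
    funext q; simp [pd]
  rw [e1, pd_pd_sum _ _ h]
  refine Finset.sum_congr rfl fun j _ => ?_
  rw [pd_pd_add_at ((cd_re (hF j)).mul (cd_re (hF j))).contDiffAt
    ((cd_im (hF j)).mul (cd_im (hF j))).contDiffAt,
    pd_pd_mul (cd_re (hF j)) (cd_re (hF j)), pd_pd_mul (cd_im (hF j)) (cd_im (hF j))]
  ring

/-- Hessian of `K = ε + ∑ |F_j|²`. -/
lemma hess_K (ε : ℝ) (hF : ∀ j, ContDiff ℂ ∞ (F j)) (p : ℂ × ℂ) :
    hzz (fun p => ε + ∑ j, ‖F j p‖ ^ 2) p = ∑ j, ‖cd (1, 0) (F j) p‖ ^ 2 ∧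
    hww (fun p => ε + ∑ j, ‖F j p‖ ^ 2) p = ∑ j, ‖cd (0, 1) (F j) p‖ ^ 2 ∧
    hP (fun p => ε + ∑ j, ‖F j p‖ ^ 2) p
      = (∑ j, cd (1, 0) (F j) p * (starRingEnd ℂ) (cd (0, 1) (F j) p)).re ∧
    hQ (fun p => ε + ∑ j, ‖F j p‖ ^ 2) p
      = (∑ j, cd (1, 0) (F j) p * (starRingEnd ℂ) (cd (0, 1) (F j) p)).im := by
  refine ⟨?_, ?_, ?_, ?_⟩
  · simp only [hzz, pd_pd_K ε hF]
    rw [← Finset.sum_add_distrib, Finset.sum_div]
    refine Finset.sum_congr rfl fun j _ => ?_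
    have hr := (hess_re_zero (hF j) p).1
    have hi := (hess_im_zero (hF j) p).1
    simp only [hzz] at hr hi
    rw [pd0_re (hF j), pd1_re (hF j), pd0_im (hF j), pd1_im (hF j), nsq_reim] at *
    linear_combination 2 * (F j p).re * hr + 2 * (F j p).im * hi
  · simp only [hww, pd_pd_K ε hF]
    rw [← Finset.sum_add_distrib, Finset.sum_div]
    refine Finset.sum_congr rfl fun j _ => ?_
    have hr := (hess_re_zero (hF j) p).2.1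
    have hi := (hess_im_zero (hF j) p).2.1
    simp only [hww] at hr hi
    rw [pd2_re (hF j), pd3_re (hF j), pd2_im (hF j), pd3_im (hF j), nsq_reim] at *
    linear_combination 2 * (F j p).re * hr + 2 * (F j p).im * hi
  · simp only [hP, pd_pd_K ε hF, Complex.re_sum]
    rw [← Finset.sum_add_distrib, Finset.sum_div]
    refine Finset.sum_congr rfl fun j _ => ?_
    have hr := (hess_re_zero (hF j) p).2.2.1
    have hi := (hess_im_zero (hF j) p).2.2.1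
    simp only [hP] at hr hi
    rw [pd0_re (hF j), pd1_re (hF j), pd0_im (hF j), pd1_im (hF j), pd2_re (hF j), pd3_re (hF j),
      pd2_im (hF j), pd3_im (hF j)] at *
    simp only [mul_re, conj_re, conj_im]
    linear_combination 2 * (F j p).re * hr + 2 * (F j p).im * hi
  · simp only [hQ, pd_pd_K ε hF, Complex.im_sum]
    rw [← Finset.sum_sub_distrib, Finset.sum_div]
    refine Finset.sum_congr rfl fun j _ => ?_
    have hr := (hess_re_zero (hF j) p).2.2.2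
    have hi := (hess_im_zero (hF j) p).2.2.2
    simp only [hQ] at hr hi
    rw [pd0_re (hF j), pd1_re (hF j), pd0_im (hF j), pd1_im (hF j), pd2_re (hF j), pd3_re (hF j),
      pd2_im (hF j), pd3_im (hF j)] at *
    simp only [mul_im, conj_re, conj_im]
    linear_combination 2 * (F j p).re * hr + 2 * (F j p).im * hi

lemma grad_K (ε : ℝ) (hF : ∀ j, ContDiff ℂ ∞ (F j)) (p : ℂ × ℂ) :
    pd 0 (fun p => ε + ∑ j, ‖F j p‖ ^ 2) p
      = 2 * (∑ j, cd (1, 0) (F j) p * (starRingEnd ℂ) (F j p)).re ∧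
    pd 1 (fun p => ε + ∑ j, ‖F j p‖ ^ 2) p
      = -2 * (∑ j, cd (1, 0) (F j) p * (starRingEnd ℂ) (F j p)).im ∧
    pd 2 (fun p => ε + ∑ j, ‖F j p‖ ^ 2) p
      = 2 * (∑ j, cd (0, 1) (F j) p * (starRingEnd ℂ) (F j p)).re ∧
    pd 3 (fun p => ε + ∑ j, ‖F j p‖ ^ 2) p
      = -2 * (∑ j, cd (0, 1) (F j) p * (starRingEnd ℂ) (F j p)).im := by
  refine ⟨?_, ?_, ?_, ?_⟩
  · rw [pd_K ε hF, Complex.re_sum, Finset.mul_sum]
    refine Finset.sum_congr rfl fun j _ => ?_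
    rw [pd0_re (hF j), pd0_im (hF j)]
    simp only [mul_re, conj_re, conj_im]; ring
  · rw [pd_K ε hF, Complex.im_sum, Finset.mul_sum]
    refine Finset.sum_congr rfl fun j _ => ?_
    rw [pd1_re (hF j), pd1_im (hF j)]
    simp only [mul_im, conj_re, conj_im]; ring
  · rw [pd_K ε hF, Complex.re_sum, Finset.mul_sum]
    refine Finset.sum_congr rfl fun j _ => ?_
    rw [pd2_re (hF j), pd2_im (hF j)]
    simp only [mul_re, conj_re, conj_im]; ring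
  · rw [pd_K ε hF, Complex.im_sum, Finset.mul_sum]
    refine Finset.sum_congr rfl fun j _ => ?_
    rw [pd3_re (hF j), pd3_im (hF j)]
    simp only [mul_im, conj_re, conj_im]; ring

/-- Cauchy-Schwarz. -/
lemma cs_sum (c G : Fin N → ℂ) :
    ‖∑ j, c j * (starRingEnd ℂ) (G j)‖ ^ 2 ≤ (∑ j, ‖c j‖ ^ 2) * ∑ j, ‖G j‖ ^ 2 := by
  have h1 : ‖∑ j, c j * (starRingEnd ℂ) (G j)‖ ≤ ∑ j, ‖c j‖ * ‖G j‖ := by
    refine (norm_sum_le _ _).trans (le_of_eq ?_)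
    refine Finset.sum_congr rfl fun j _ => ?_
    rw [norm_mul, Complex.norm_conj]
  calc ‖∑ j, c j * (starRingEnd ℂ) (G j)‖ ^ 2 ≤ (∑ j, ‖c j‖ * ‖G j‖) ^ 2 := by gcongr
    _ ≤ _ := Finset.sum_mul_sq_le_sq_mul_sq _ _ _

/-- The `2 × 2` inequality behind `log ∑ |F_j|²`. -/
lemma posQ_log (a b G : Fin N → ℂ) (K : ℝ) (hK : 0 < K) (hKG : ∑ j, ‖G j‖ ^ 2 ≤ K) :
    PosQ (K⁻¹ * ∑ j, ‖a j‖ ^ 2 - (K ^ 2)⁻¹ * ‖∑ j, a j * (starRingEnd ℂ) (G j)‖ ^ 2)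
      (K⁻¹ * ∑ j, ‖b j‖ ^ 2 - (K ^ 2)⁻¹ * ‖∑ j, b j * (starRingEnd ℂ) (G j)‖ ^ 2)
      (K⁻¹ * (∑ j, a j * (starRingEnd ℂ) (b j)).re - (K ^ 2)⁻¹ *
        ((∑ j, a j * (starRingEnd ℂ) (G j)) * (starRingEnd ℂ) (∑ j, b j * (starRingEnd ℂ) (G j))).re)
      (K⁻¹ * (∑ j, a j * (starRingEnd ℂ) (b j)).im - (K ^ 2)⁻¹ *
        ((∑ j, a j * (starRingEnd ℂ) (G j)) *
          (starRingEnd ℂ) (∑ j, b j * (starRingEnd ℂ) (G j))).im) := by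
  apply posQ_of_form
  intro x y
  set α := ∑ j, a j * (starRingEnd ℂ) (G j) with hα
  set β := ∑ j, b j * (starRingEnd ℂ) (G j) with hβ
  have h1 : ∑ j, ‖a j * x + b j * y‖ ^ 2 = (∑ j, ‖a j‖ ^ 2) * ‖x‖ ^ 2 + (∑ j, ‖b j‖ ^ 2) * ‖y‖ ^ 2
      + 2 * ((∑ j, a j * (starRingEnd ℂ) (b j)) * x * (starRingEnd ℂ) y).re := by
    simp_rw [nsq_lin]
    rw [Finset.sum_add_distrib, Finset.sum_add_distrib, Finset.sum_mul, Finset.sum_mul,
      ← Finset.mul_sum, Finset.sum_mul, Finset.sum_mul, Complex.re_sum]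
  have h2 := nsq_lin α β x y
  have h3 : α * x + β * y = ∑ j, (a j * x + b j * y) * (starRingEnd ℂ) (G j) := by
    rw [hα, hβ, Finset.sum_mul, Finset.sum_mul, ← Finset.sum_add_distrib]
    refine Finset.sum_congr rfl fun j _ => by ring
  have h4 : ‖α * x + β * y‖ ^ 2 ≤ K * ∑ j, ‖a j * x + b j * y‖ ^ 2 := by
    rw [h3]
    refine (cs_sum _ _).trans ?_
    rw [mul_comm K]
    exact mul_le_mul_of_nonneg_left hKG (Finset.sum_nonneg fun j _ => sq_nonneg _)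
  have h5 : (K⁻¹ * ∑ j, ‖a j‖ ^ 2 - (K ^ 2)⁻¹ * ‖α‖ ^ 2) * ‖x‖ ^ 2 +
      (K⁻¹ * ∑ j, ‖b j‖ ^ 2 - (K ^ 2)⁻¹ * ‖β‖ ^ 2) * ‖y‖ ^ 2 +
      2 * ((((K⁻¹ * (∑ j, a j * (starRingEnd ℂ) (b j)).re - (K ^ 2)⁻¹ *
        (α * (starRingEnd ℂ) β).re : ℝ) : ℂ) + ((K⁻¹ * (∑ j, a j * (starRingEnd ℂ) (b j)).im
          - (K ^ 2)⁻¹ * (α * (starRingEnd ℂ) β).im : ℝ) : ℂ) * I) * x * (starRingEnd ℂ) y).re
      = K⁻¹ * (∑ j, ‖a j * x + b j * y‖ ^ 2) - (K ^ 2)⁻¹ * ‖α * x + β * y‖ ^ 2 := by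
    have hre : ∀ P Q : ℝ, (((P : ℂ) + (Q : ℂ) * I) * x * (starRingEnd ℂ) y).re
        = P * (x * (starRingEnd ℂ) y).re - Q * (x * (starRingEnd ℂ) y).im := by
      intro P Q
      rw [mul_assoc, mul_re]
      simp
    have hre2 : ∀ γ : ℂ, (γ * x * (starRingEnd ℂ) y).re
        = γ.re * (x * (starRingEnd ℂ) y).re - γ.im * (x * (starRingEnd ℂ) y).im := by
      intro γ
      rw [mul_assoc, mul_re]
    rw [h1, h2, hre, hre2, hre2]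
    ring
  rw [h5]
  have hK2 : (K ^ 2)⁻¹ * ‖α * x + β * y‖ ^ 2 ≤ (K ^ 2)⁻¹ * (K * ∑ j, ‖a j * x + b j * y‖ ^ 2) := by
    gcongr
  have : (K ^ 2)⁻¹ * (K * ∑ j, ‖a j * x + b j * y‖ ^ 2) = K⁻¹ * ∑ j, ‖a j * x + b j * y‖ ^ 2 := by
    rw [← mul_assoc]
    congr 1
    field_simp
  linarith

theorem T3_logsum (ε s : ℝ) (hε : 0 < ε) (hs : 0 ≤ s) (hF : ∀ j, ContDiff ℂ ∞ (F j)) :
    SPsh (fun p => s * Real.log (ε + ∑ j, ‖F j p‖ ^ 2)) := by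
  have hK := cd_K ε hF
  have hpos : ∀ q, 0 < ε + ∑ j, ‖F j q‖ ^ 2 := fun q => by positivity
  refine ⟨cd_slog s hK hpos, fun p => ?_⟩
  obtain ⟨h1, h2, h3, h4⟩ := hess_slog s hK hpos p
  obtain ⟨k1, k2, k3, k4⟩ := hess_K ε hF p
  obtain ⟨g1, g2, g3, g4⟩ := grad_K ε hF p
  have hP := (posQ_log (fun j => cd (1, 0) (F j) p) (fun j => cd (0, 1) (F j) p) (fun j => F j p)
    (ε + ∑ j, ‖F j p‖ ^ 2) (hpos p) (by linarith)).smul hs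
  rw [lpos_iff_posQ, h1, h2, h3, h4, k1, k2, k3, k4, g1, g2, g3, g4]
  convert hP using 1
  · rw [nsq_reim (∑ j, _)]; ring
  · rw [nsq_reim (∑ j, _)]; ring
  · simp only [mul_re, conj_re, conj_im]; ring
  · simp only [mul_im, conj_re, conj_im]; ring

end logsum

theorem stmt_T3 : Stmt_T3 :=
  ⟨fun r hr => T3_log r hr, T3_sq, fun _ _ ε s hε hs hF => T3_logsum ε s hε hs hF⟩

end CMA
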