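import Pool.Agent.Work.MP_4eb3f9_an_helper74.N

/-!
# Block V, first part: growth of the annulus means
-/

open Complex MeasureTheory Filter Topology
open scoped ContDiff

namespace CMA

namespace BV

/-- scaling in the `w` variable -/
noncomputable def sg (s : ℝ) (p : ℂ × ℂ) : ℂ × ℂ := (p.1, s • p.2)

lemma sg_eq (s : ℝ) : sg s = Prod.map id (s • ·) := rfl

lemma sg_cont (s : ℝ) : Continuous (sg s) := by unfold sg; fun_prop

lemma sg_cd (s : ℝ) : ContDiff ℝ ∞ (sg s) := by unfold sg; fun_prop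

lemma sg_emb {s : ℝ} (hs : 0 < s) : MeasurableEmbedding (sg s) := by
  have h : Continuous (sg s⁻¹) := sg_cont _
  have hl : Function.LeftInverse (sg s⁻¹) (sg s) := by
    intro p
    have h0 : (s : ℂ) ≠ 0 := by exact_mod_cast hs.ne'
    simp [sg, h0]
  have hr : Function.RightInverse (sg s⁻¹) (sg s) := by
    intro p
    have h0 : (s : ℂ) ≠ 0 := by exact_mod_cast hs.ne'
    simp [sg, h0]
  exact (Homeomorph.mk ⟨sg s, sg s⁻¹, hl, hr⟩ (sg_cont s) h).measurableEmbedding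

lemma sg_map {s : ℝ} (hs : 0 < s) :
    Measure.map (sg s) (volume : Measure (ℂ × ℂ)) = ENNReal.ofReal (s ^ 2)⁻¹ • volume := by
  have h1 : Measure.map (fun z : ℂ => s • z) volume = ENNReal.ofReal (s ^ 2)⁻¹ • volume := by
    rw [Measure.map_addHaar_smul volume hs.ne', Complex.finrank_real_complex,
      abs_of_pos (by positivity)]
  rw [Measure.volume_eq_prod, sg_eq, ← Measure.map_prod_map _ _ measurable_id (by fun_prop),
    Measure.map_id, h1, Measure.prod_smul_right]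

lemma sg_int {s : ℝ} (hs : 0 < s) (F : ℂ × ℂ → ℝ) (B : Set (ℂ × ℂ)) :
    ∫ p in sg s ⁻¹' B, F (sg s p) = (s ^ 2)⁻¹ * ∫ p in B, F p := by
  rw [← (sg_emb hs).setIntegral_map, sg_map hs, Measure.restrict_smul, integral_smul_measure,
    ENNReal.toReal_ofReal (by positivity), smul_eq_mul]

/-- The closed annulus. -/
def Ann (k : ℕ) : Set (ℂ × ℂ) :=
  {p : ℂ × ℂ | ‖p.1‖ ≤ 1 / 2 ∧ (1 / 2) ^ k ≤ ‖p.2‖ ∧ ‖p.2‖ ≤ 2 * (1 / 2) ^ k}

lemma annMean_eq (k : ℕ) (f : ℂ × ℂ → ℝ) : annMean k f = 4 ^ k * ∫ p in Ann k, f p := rfl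

lemma Ann_closed (k : ℕ) : IsClosed (Ann k) :=
  (isClosed_le (continuous_norm.comp continuous_fst) continuous_const).inter
    ((isClosed_le continuous_const (continuous_norm.comp continuous_snd)).inter
      (isClosed_le (continuous_norm.comp continuous_snd) continuous_const))

lemma Ann_sub (k : ℕ) : Ann k ⊆ PD (1 / 2) (2 * (1 / 2) ^ k) := fun _ h => ⟨h.1, h.2.2⟩

lemma Ann_compact (k : ℕ) : IsCompact (Ann k) :=
  (BN.PD_compact _ _).of_isClosed_subset (Ann_closed k) (Ann_sub k)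

lemma Ann_meas (k : ℕ) : MeasurableSet (Ann k) := (Ann_closed k).measurableSet

/-- derivative along the scaling -/
lemma deriv_sg {f : ℂ × ℂ → ℝ} (hf : ContDiff ℝ ∞ f) (p : ℂ × ℂ) (s : ℝ) :
    HasDerivAt (fun s : ℝ => f (sg s p))
      (p.2.re * pd 2 f (sg s p) + p.2.im * pd 3 f (sg s p)) s := by
  have h1 : HasDerivAt (fun s : ℝ => sg s p) ((0, p.2) : ℂ × ℂ) s := by
    have ha : HasDerivAt (fun s : ℝ => s • p.2) ((1 : ℝ) • p.2) s :=
      (hasDerivAt_id s).smul_const p.2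
    rw [one_smul] at ha
    exact (hasDerivAt_const s p.1).prodMk ha
  have h2 := ((cd_diff hf (sg s p)).hasFDerivAt).comp_hasDerivAt s h1
  have h3 : ((0, p.2) : ℂ × ℂ) = p.2.re • dir 2 + p.2.im • dir 3 := by
    ext <;> simp
  have h4 : fderiv ℝ f (sg s p) (0, p.2)
      = p.2.re * pd 2 f (sg s p) + p.2.im * pd 3 f (sg s p) := by
    rw [h3, map_add, map_smul, map_smul]
    rfl
  rw [← h4]
  exact h2

/-- pointwise increment -/
lemma incr_pt {f : ℂ × ℂ → ℝ} (hf : ContDiff ℝ ∞ f) (p : ℂ × ℂ) {lam : ℝ} (hl : 0 < lam) :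
    f (sg (1 / 2) p) - f p ≤ ∫ s in (1 / 2 : ℝ)..1, (lam * ‖p.2‖ ^ 2 + lam⁻¹ * gw f (sg s p)) := by
  have hc : ∀ k : Fin 4, Continuous (fun s : ℝ => pd k f (sg s p)) := by
    intro k
    have : Continuous (fun s : ℝ => sg s p) := by unfold sg; fun_prop
    exact (cd_pd hf k).continuous.comp this
  have hc' : Continuous (fun s : ℝ => gw f (sg s p)) := by
    have : Continuous (fun s : ℝ => sg s p) := by unfold sg; fun_prop
    exact (cd_gw hf).continuous.comp this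
  have hi : Continuous (fun s : ℝ => p.2.re * pd 2 f (sg s p) + p.2.im * pd 3 f (sg s p)) :=
    (continuous_const.mul (hc 2)).add (continuous_const.mul (hc 3))
  have h1 : ∫ s in (1 / 2 : ℝ)..1, (p.2.re * pd 2 f (sg s p) + p.2.im * pd 3 f (sg s p))
      = f (sg 1 p) - f (sg (1 / 2) p) :=
    intervalIntegral.integral_eq_sub_of_hasDerivAt (fun s _ => deriv_sg hf p s)
      (hi.intervalIntegrable _ _)
  have h2 : sg 1 p = p := by simp [sg]
  rw [h2] at h1
  have h3 : f (sg (1 / 2) p) - f p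
      = ∫ s in (1 / 2 : ℝ)..1, -(p.2.re * pd 2 f (sg s p) + p.2.im * pd 3 f (sg s p)) := by
    rw [intervalIntegral.integral_neg, h1]; ring
  rw [h3]
  refine intervalIntegral.integral_mono_on (by norm_num) (hi.neg.intervalIntegrable _ _)
    ((continuous_const.add (continuous_const.mul hc')).intervalIntegrable _ _) fun s _ => ?_
  have hn := nsq_reim p.2
  have hg : gw f (sg s p) = (pd 2 f (sg s p) ^ 2 + pd 3 f (sg s p) ^ 2) / 4 := rfl
  rw [hn, hg]
  set a := pd 2 f (sg s p)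
  set b := pd 3 f (sg s p)
  have key : 0 ≤ lam * (p.2.re + lam⁻¹ / 2 * a) ^ 2 + lam * (p.2.im + lam⁻¹ / 2 * b) ^ 2 := by
    positivity
  have e : lam * (p.2.re + lam⁻¹ / 2 * a) ^ 2 + lam * (p.2.im + lam⁻¹ / 2 * b) ^ 2
      = lam * (p.2.re * p.2.re + p.2.im * p.2.im) + (p.2.re * a + p.2.im * b)
        + lam⁻¹ * ((a ^ 2 + b ^ 2) / 4) := by
    field_simp
    ring
  linarith

/-- The half-open shell `(1/2)^(j+1) < ‖w‖ ≤ 2 (1/2)^j`. -/
def Shell (j : ℕ) : Set (ℂ × ℂ) :=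
  PD (1 / 2) (2 * (1 / 2) ^ j) \ PD (1 / 2) (2 * (1 / 2) ^ (j + 2))

/-- The energies of the polydiscs. -/
noncomputable def En (f : ℂ × ℂ → ℝ) (j : ℕ) : ℝ := ∫ p in PD (1 / 2) (2 * (1 / 2) ^ j), gw f p

lemma En_nonneg (f : ℂ × ℂ → ℝ) (j : ℕ) : 0 ≤ En f j :=
  integral_nonneg fun p => gw_nonneg f p

lemma Shell_int {f : ℂ × ℂ → ℝ} (hf : ContDiff ℝ ∞ f) (j : ℕ) :
    ∫ p in Shell j, gw f p = En f j - En f (j + 2) := by
  unfold Shell En
  refine setIntegral_sdiff (BN.PD_meas _ _) (BN.intOn (cd_gw hf).continuous _ _) ?_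
  rintro p ⟨h1, h2⟩
  refine ⟨h1, h2.trans ?_⟩
  rw [pow_add]
  have : (0 : ℝ) < (1 / 2) ^ j := by positivity
  nlinarith

lemma Ann_sub_shell (j : ℕ) {s : ℝ} (hs : s ∈ Set.Ioc (1 / 2 : ℝ) 1) :
    Ann j ⊆ sg s ⁻¹' Shell j := by
  rintro p ⟨h1, h2, h3⟩
  obtain ⟨hs1, hs2⟩ := hs
  have hs0 : 0 < s := by linarith
  have hpow : (0 : ℝ) < (1 / 2) ^ j := by positivity
  have hn : ‖(sg s p).2‖ = s * ‖p.2‖ := by
    simp [sg, abs_of_pos hs0]
  refine ⟨⟨h1, ?_⟩, ?_⟩
  · rw [hn]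
    nlinarith [norm_nonneg p.2]
  · intro h
    have h4 := h.2
    rw [hn, pow_add] at h4
    nlinarith [norm_nonneg p.2]

lemma Shell_meas (j : ℕ) : MeasurableSet (Shell j) := (BN.PD_meas _ _).diff (BN.PD_meas _ _)

lemma energy_slice {f : ℂ × ℂ → ℝ} (hf : ContDiff ℝ ∞ f) (j : ℕ) {s : ℝ}
    (hs : s ∈ Set.Ioc (1 / 2 : ℝ) 1) :
    ∫ p in Ann j, gw f (sg s p) ≤ 4 * (En f j - En f (j + 2)) := by
  have hs0 : 0 < s := by linarith [hs.1]
  have hG : Continuous (fun p => gw f (sg s p)) := (cd_gw hf).continuous.comp (sg_cont s)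
  have h1 : ∫ p in Ann j, gw f (sg s p) ≤ ∫ p in sg s ⁻¹' Shell j, gw f (sg s p) := by
    refine setIntegral_mono_set ?_ (Filter.Eventually.of_forall fun p => gw_nonneg f _)
      (Filter.Eventually.of_forall (Ann_sub_shell j hs))
    refine (BN.intOn hG (1 / 2) (s⁻¹ * (2 * (1 / 2) ^ j))).mono_set ?_
    rintro p ⟨⟨h1, h2⟩, -⟩
    refine ⟨h1, ?_⟩
    have hn : ‖(sg s p).2‖ = s * ‖p.2‖ := by
      simp [sg, abs_of_pos hs0]
    rw [hn] at h2
    rw [inv_mul_eq_div, le_div_iff₀ hs0]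
    linarith
  rw [sg_int hs0 (gw f), Shell_int hf] at h1
  refine h1.trans ?_
  have h2 : 0 ≤ En f j - En f (j + 2) := by
    rw [← Shell_int hf]
    exact integral_nonneg fun p => gw_nonneg f p
  have h3 : (s ^ 2)⁻¹ ≤ 4 := by
    rw [inv_le_comm₀ (by positivity) (by norm_num)]
    nlinarith [hs.1]
  exact mul_le_mul_of_nonneg_right h3 h2

lemma Ann_scale (j : ℕ) : sg (1 / 2) ⁻¹' Ann (j + 1) = Ann j := by
  ext p
  have hn : ‖(sg (1 / 2) p).2‖ = 1 / 2 * ‖p.2‖ := by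
    simp [sg]
  have hpow : (0 : ℝ) < (1 / 2) ^ j := by positivity
  simp only [Set.mem_preimage, Ann, Set.mem_ofPred_eq, hn]
  have h1 : (sg (1 / 2) p).1 = p.1 := rfl
  rw [h1, pow_succ]
  constructor
  · rintro ⟨a, b, c⟩
    exact ⟨a, by linarith, by linarith⟩
  · rintro ⟨a, b, c⟩
    exact ⟨a, by linarith, by linarith⟩

/-- `∫ ‖w‖²` over the annuli. -/
noncomputable def Vn (j : ℕ) : ℝ := ∫ p in Ann j, ‖p.2‖ ^ 2

lemma Vn_succ (j : ℕ) : Vn (j + 1) = Vn j / 16 := by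
  have h := sg_int (s := 1 / 2) (by norm_num) (fun p => ‖p.2‖ ^ 2) (Ann (j + 1))
  rw [Ann_scale] at h
  have h2 : ∫ p in Ann j, ‖(sg (1 / 2) p).2‖ ^ 2 = 1 / 4 * Vn j := by
    unfold Vn
    rw [← integral_const_mul]
    refine integral_congr_ae (Filter.Eventually.of_forall fun p => ?_)
    have hn : ‖(sg (1 / 2) p).2‖ = 1 / 2 * ‖p.2‖ := by
      simp [sg]
    simp only [hn]; ring
  rw [h2] at h
  unfold Vn at h ⊢
  norm_num at h ⊢
  linarith

lemma Vn_eq (j : ℕ) : Vn j = Vn 0 * (1 / 16) ^ j := by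
  induction j with
  | zero => simp
  | succ j ih => rw [Vn_succ, ih, pow_succ]; ring

lemma annMean_succ (j : ℕ) (f : ℂ × ℂ → ℝ) :
    annMean (j + 1) f = 4 ^ j * ∫ p in Ann j, f (sg (1 / 2) p) := by
  have h := sg_int (s := 1 / 2) (by norm_num) f (Ann (j + 1))
  rw [Ann_scale] at h
  rw [h, annMean_eq, pow_succ]
  norm_num
  ring

/-- The increment bound. -/
lemma incr {f : ℂ × ℂ → ℝ} (hf : ContDiff ℝ ∞ f) (j : ℕ) {μ : ℝ} (hμ : 0 < μ) :
    annMean (j + 1) f - annMean j f ≤ μ * Vn 0 / 2 + 2 * μ⁻¹ * (En f j - En f (j + 2)) := by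
  set lam : ℝ := μ * 4 ^ j with hlam
  have hl : 0 < lam := by positivity
  have hf1 : Continuous (fun p => f (sg (1 / 2) p)) := hf.continuous.comp (sg_cont _)
  have ii : ∀ {F : ℂ × ℂ → ℝ}, Continuous F → IntegrableOn F (Ann j) := fun hF =>
    hF.continuousOn.integrableOn_compact (Ann_compact j)
  have e1 : annMean (j + 1) f - annMean j f
      = 4 ^ j * ∫ p in Ann j, (f (sg (1 / 2) p) - f p) := by
    rw [annMean_succ, annMean_eq, integral_sub (ii hf1) (ii hf.continuous)]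
    ring
  rw [e1]
  set Φ : ℝ → ℂ × ℂ → ℝ := fun s p => lam * ‖p.2‖ ^ 2 + lam⁻¹ * gw f (sg s p) with hΦ
  have hΦc : Continuous (Function.uncurry Φ) := by
    have h1 : Continuous (fun q : ℝ × (ℂ × ℂ) => sg q.1 q.2) := by unfold sg; fun_prop
    have h2 : Continuous (fun q : ℝ × (ℂ × ℂ) => gw f (sg q.1 q.2)) :=
      (cd_gw hf).continuous.comp h1
    have h3 : Continuous (fun q : ℝ × (ℂ × ℂ) => lam * ‖q.2.2‖ ^ 2) := by fun_prop
    exact h3.add (continuous_const.mul h2)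
  have hΦint : Integrable (Function.uncurry Φ)
      ((volume.restrict (Set.uIoc (1 / 2 : ℝ) 1)).prod (volume.restrict (Ann j))) := by
    rw [Measure.prod_restrict]
    have : IntegrableOn (Function.uncurry Φ) (Set.uIcc (1 / 2 : ℝ) 1 ×ˢ Ann j)
        (volume.prod volume) :=
      hΦc.continuousOn.integrableOn_compact (isCompact_uIcc.prod (Ann_compact j))
    exact this.mono_set (Set.prod_mono Set.uIoc_subset_uIcc subset_rfl)
  have h1 : ∫ p in Ann j, (f (sg (1 / 2) p) - f p)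
      ≤ ∫ p in Ann j, ∫ s in (1 / 2 : ℝ)..1, Φ s p := by
    refine integral_mono (ii (hf1.sub hf.continuous)) ?_ (fun p => incr_pt hf p hl)
    have hc : Continuous (fun p => ∫ s in (1 / 2 : ℝ)..1, Φ s p) := by
      refine intervalIntegral.continuous_parametric_intervalIntegral_of_continuous' ?_ _ _
      exact hΦc.comp continuous_swap
    exact ii hc
  rw [← intervalIntegral_integral_swap hΦint] at h1
  have h2 : ∫ s in (1 / 2 : ℝ)..1, ∫ p in Ann j, Φ s p
      ≤ ∫ s in (1 / 2 : ℝ)..1, (lam * Vn j + lam⁻¹ * (4 * (En f j - En f (j + 2)))) := by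
    rw [intervalIntegral.integral_of_le (by norm_num), intervalIntegral.integral_of_le (by norm_num)]
    refine setIntegral_mono_on ?_ ?_ measurableSet_Ioc fun s hs => ?_
    · have := hΦint.integral_prod_left
      rw [Set.uIoc_of_le (by norm_num)] at this
      exact this
    · exact (continuous_const.integrableOn_Icc (a := (1 / 2 : ℝ)) (b := 1)).mono_set
        Set.Ioc_subset_Icc_self
    · have i1 : IntegrableOn (fun p : ℂ × ℂ => lam * ‖p.2‖ ^ 2) (Ann j) := ii (by fun_prop)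
      have i2 : IntegrableOn (fun p : ℂ × ℂ => lam⁻¹ * gw f (sg s p)) (Ann j) :=
        ii (continuous_const.mul ((cd_gw hf).continuous.comp (sg_cont s)))
      simp only [hΦ]
      rw [integral_add i1 i2, integral_const_mul, integral_const_mul]
      have := energy_slice hf j hs
      have h3 : lam⁻¹ * (∫ p in Ann j, gw f (sg s p)) ≤ lam⁻¹ * (4 * (En f j - En f (j + 2))) :=
        mul_le_mul_of_nonneg_left this (by positivity)
      have h4 : ∫ p in Ann j, ‖p.2‖ ^ 2 = Vn j := rfl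
      rw [h4]
      linarith
  rw [intervalIntegral.integral_const, smul_eq_mul] at h2
  have h3 : (4 : ℝ) ^ j * (∫ p in Ann j, (f (sg (1 / 2) p) - f p))
      ≤ 4 ^ j * ((1 - 1 / 2) * (lam * Vn j + lam⁻¹ * (4 * (En f j - En f (j + 2))))) :=
    mul_le_mul_of_nonneg_left (h1.trans h2) (by positivity)
  refine h3.trans (le_of_eq ?_)
  rw [Vn_eq j, hlam]
  have h4 : (4 : ℝ) ^ j ≠ 0 := by positivity
  have h5 : ((1 : ℝ) / 16) ^ j = ((4 : ℝ) ^ j)⁻¹ * ((4 : ℝ) ^ j)⁻¹ := by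
    rw [← mul_inv, ← mul_pow, one_div, inv_pow]
    norm_num
  rw [h5]
  field_simp
  ring

lemma sum_incr {f : ℂ × ℂ → ℝ} (hf : ContDiff ℝ ∞ f) (k n : ℕ) {μ : ℝ} (hμ : 0 < μ) :
    annMean (k + n) f - annMean k f ≤ n * (μ * Vn 0 / 2)
      + 2 * μ⁻¹ * (En f k + En f (k + 1) - En f (k + n) - En f (k + n + 1)) := by
  induction n with
  | zero => simp
  | succ n ih =>
    have h := incr hf (k + n) hμ
    have e : k + (n + 1) = k + n + 1 := by ring
    rw [e]
    push_cast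
    have e2 : k + n + 1 + 1 = k + n + 2 := by ring
    rw [e2]
    linarith

lemma En_anti {f : ℂ × ℂ → ℝ} (hf : ContDiff ℝ ∞ f) (k : ℕ) : En f (k + 1) ≤ En f k := by
  unfold En
  refine setIntegral_mono_set (BN.intOn (cd_gw hf).continuous _ _)
    (Filter.Eventually.of_forall fun p => gw_nonneg f _)
    (Filter.Eventually.of_forall ?_)
  rintro p ⟨h1, h2⟩
  refine ⟨h1, h2.trans ?_⟩
  rw [pow_succ]
  have : (0 : ℝ) < (1 / 2) ^ k := by positivity
  linarith

lemma Vn_nonneg (j : ℕ) : 0 ≤ Vn j := integral_nonneg fun p => by positivity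

lemma opt {D a b : ℝ} (ha : 0 ≤ a) (hb : 0 ≤ b) (h : ∀ μ : ℝ, 0 < μ → D ≤ μ * a + μ⁻¹ * b) :
    D ≤ 2 * (√a * √b) := by
  -- use `μ = (√b + ε) / (√a + ε)`
  have key : ∀ ε : ℝ, 0 < ε → D ≤ 2 * ((√a + ε) * (√b + ε)) := by
    intro ε hε
    have hA : 0 < √a + ε := by positivity
    have hB : 0 < √b + ε := by positivity
    have h1 := h ((√b + ε) / (√a + ε)) (by positivity)
    have h2 : a ≤ (√a + ε) ^ 2 := by
      nlinarith [Real.sq_sqrt ha, Real.sqrt_nonneg a]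
    have h3 : b ≤ (√b + ε) ^ 2 := by
      nlinarith [Real.sq_sqrt hb, Real.sqrt_nonneg b]
    have h4 : (√b + ε) / (√a + ε) * a ≤ (√a + ε) * (√b + ε) := by
      calc (√b + ε) / (√a + ε) * a ≤ (√b + ε) / (√a + ε) * (√a + ε) ^ 2 := by gcongr
        _ = _ := by field_simp
    have h5 : ((√b + ε) / (√a + ε))⁻¹ * b ≤ (√a + ε) * (√b + ε) := by
      calc ((√b + ε) / (√a + ε))⁻¹ * b ≤ ((√b + ε) / (√a + ε))⁻¹ * (√b + ε) ^ 2 := by gcongr
        _ = _ := by field_simp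
    linarith
  have hlim : Tendsto (fun ε : ℝ => 2 * ((√a + ε) * (√b + ε))) (𝓝[>] 0) (𝓝 (2 * (√a * √b))) := by
    have : Continuous (fun ε : ℝ => 2 * ((√a + ε) * (√b + ε))) := by fun_prop
    have h0 := this.tendsto 0
    simp only [add_zero] at h0
    exact h0.mono_left nhdsWithin_le_nhds
  refine ge_of_tendsto hlim ?_
  filter_upwards [self_mem_nhdsWithin] with ε hε
  exact key ε hε

end BV

open BV

/-- First part of `Stmt_V`. -/
theorem stmt_V1 : ∃ C : ℝ, 0 ≤ C ∧ ∀ (f : ℂ × ℂ → ℝ) (k l : ℕ), ContDiff ℝ ∞ f → k ≤ l →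
    annMean l f ≤ annMean k f +
      C * Real.sqrt (l - k) * Real.sqrt (∫ p in PD (1 / 2) (2 * (1 / 2) ^ k), gw f p) := by
  refine ⟨2 * (√(Vn 0 / 2) * √4), by positivity, ?_⟩
  intro f k l hf hkl
  obtain ⟨n, rfl⟩ := Nat.exists_eq_add_of_le hkl
  have hE : ∫ p in PD (1 / 2) (2 * (1 / 2) ^ k), gw f p = En f k := rfl
  rw [hE]
  have h0 := Vn_nonneg 0
  have h1 : annMean (k + n) f - annMean k f ≤ 2 * (√(n * (Vn 0 / 2)) * √(4 * En f k)) := by
    refine opt (by positivity) (mul_nonneg (by norm_num) (En_nonneg f k)) fun μ hμ => ?_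
    refine (sum_incr hf k n hμ).trans ?_
    have h2 := En_anti hf k
    have h3 := En_nonneg f (k + n)
    have h4 := En_nonneg f (k + n + 1)
    have h5 : 2 * μ⁻¹ * (En f k + En f (k + 1) - En f (k + n) - En f (k + n + 1))
        ≤ 2 * μ⁻¹ * (2 * En f k) :=
      mul_le_mul_of_nonneg_left (by linarith) (by positivity)
    have h6 : (n : ℝ) * (μ * Vn 0 / 2) = μ * (n * (Vn 0 / 2)) := by ring
    rw [h6]
    linarith
  have e1 : √(n * (Vn 0 / 2)) = √n * √(Vn 0 / 2) := Real.sqrt_mul (by positivity) _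
  have e2 : √(4 * En f k) = √4 * √(En f k) := Real.sqrt_mul (by norm_num) _
  rw [e1, e2] at h1
  have e3 : ((k + n : ℕ) : ℝ) - k = n := by push_cast; ring
  rw [e3]
  linarith

end CMA
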