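import Pool.Agent.Work.MP_4eb3f9_an.Basic

/-!
# Block T1: cut-offs and regularised maximum
-/

open Complex MeasureTheory Filter Topology
open scoped ContDiff

namespace CMA

namespace T1aux

/-- primitive of a smooth function. -/
lemma prim_hasDeriv {φ : ℝ → ℝ} (hφ : ContDiff ℝ ∞ φ) (a x : ℝ) :
    HasDerivAt (fun x => ∫ s in a..x, φ s) (φ x) x :=
  intervalIntegral.integral_hasDerivAt_right (hφ.continuous.intervalIntegrable _ _)
    hφ.continuous.stronglyMeasurable.stronglyMeasurableAtFilter hφ.continuous.continuousAt

lemma prim_deriv {φ : ℝ → ℝ} (hφ : ContDiff ℝ ∞ φ) (a : ℝ) :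
    deriv (fun x => ∫ s in a..x, φ s) = φ := by
  funext x; exact (prim_hasDeriv hφ a x).deriv

lemma prim_contDiff {φ : ℝ → ℝ} (hφ : ContDiff ℝ ∞ φ) (a : ℝ) :
    ContDiff ℝ ∞ (fun x => ∫ s in a..x, φ s) := by
  rw [contDiff_infty_iff_deriv]
  refine ⟨fun x => (prim_hasDeriv hφ a x).differentiableAt, ?_⟩
  rw [prim_deriv hφ a]
  exact hφ

lemma st_symm (x : ℝ) : Real.smoothTransition (1 - x) = 1 - Real.smoothTransition x := by
  have h := Real.smoothTransition.pos_denom x
  unfold Real.smoothTransition
  have h2 : (0 : ℝ) < expNegInvGlue (1 - x) + expNegInvGlue (1 - (1 - x)) := by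
    have : 1 - (1 - x) = x := by ring
    rw [this, add_comm]; exact h
  have e : 1 - (1 - x) = x := by ring
  rw [e] at h2 ⊢
  field_simp
  ring

lemma st_mono : Monotone Real.smoothTransition := by
  exact Real.smoothTransition.monotone

end T1aux

open T1aux

theorem stmt_T1 : Stmt_T1 := by
  refine ⟨?_, ?_⟩
  · intro δ hδ
    set φ : ℝ → ℝ := fun s => Real.smoothTransition (s / δ) with hφdef
    have hφ : ContDiff ℝ ∞ φ := Real.smoothTransition.contDiff.comp (contDiff_id.div_const δ)
    have hφ0 : ∀ s, s ≤ 0 → φ s = 0 := fun s hs =>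
      Real.smoothTransition.zero_of_nonpos (div_nonpos_of_nonpos_of_nonneg hs hδ.le)
    have hφ1 : ∀ s, δ ≤ s → φ s = 1 := fun s hs =>
      Real.smoothTransition.one_of_one_le (by rw [le_div_iff₀ hδ]; linarith)
    have hφn : ∀ s, 0 ≤ φ s := fun s => Real.smoothTransition.nonneg _
    have hφl : ∀ s, φ s ≤ 1 := fun s => Real.smoothTransition.le_one _
    have hφm : Monotone φ := fun s t hst => st_mono (by gcongr)
    have hd := prim_deriv hφ 0
    have hint : ∀ a b : ℝ, IntervalIntegrable φ volume a b := fun a b =>
      hφ.continuous.intervalIntegrable a b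
    refine ⟨fun x => ∫ s in (0 : ℝ)..x, φ s, ⟨prim_contDiff hφ 0, ?_, ?_, ?_, ?_, ?_, ?_, ?_, ?_⟩⟩
    · intro x hx
      rw [intervalIntegral.integral_congr (g := fun _ => (0 : ℝ))]
      · simp
      · intro s hs
        rw [Set.uIcc_of_ge hx] at hs
        exact hφ0 s hs.2
    · intro x
      rcases le_total 0 x with hx | hx
      · exact intervalIntegral.integral_nonneg hx (fun s _ => hφn s)
      · rw [intervalIntegral.integral_congr (g := fun _ => (0 : ℝ))]
        · simp
        · intro s hs
          rw [Set.uIcc_of_ge hx] at hs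
          exact hφ0 s hs.2
    · intro x; rw [hd]; exact hφn x
    · intro x; rw [hd]; exact hφl x
    · intro x hx; rw [hd]; exact hφ1 x hx
    · intro x; rw [hd]; exact hφm.deriv_nonneg
    · intro x
      rcases le_total 0 x with hx | hx
      · rw [max_eq_left hx]
        calc ∫ s in (0 : ℝ)..x, φ s ≤ ∫ s in (0 : ℝ)..x, (1 : ℝ) :=
              intervalIntegral.integral_mono_on hx (hint _ _) (by simp) (fun s _ => hφl s)
          _ = x := by simp
      · rw [max_eq_right hx, intervalIntegral.integral_congr (g := fun _ => (0 : ℝ))]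
        · simp
        · intro s hs
          rw [Set.uIcc_of_ge hx] at hs
          exact hφ0 s hs.2
    · intro x
      rcases le_total δ x with hx | hx
      · rw [← intervalIntegral.integral_add_adjacent_intervals (hint 0 δ) (hint δ x)]
        have h1 : 0 ≤ ∫ s in (0 : ℝ)..δ, φ s :=
          intervalIntegral.integral_nonneg hδ.le (fun s _ => hφn s)
        have h2 : ∫ s in δ..x, φ s = x - δ := by
          rw [intervalIntegral.integral_congr (g := fun _ => (1 : ℝ))]
          · simp
          · intro s hs
            rw [Set.uIcc_of_le hx] at hs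
            exact hφ1 s hs.1
        linarith
      · rcases le_total 0 x with hx0 | hx0
        · have := intervalIntegral.integral_nonneg hx0 (fun s _ => hφn s) (μ := volume)
          linarith
        · rw [intervalIntegral.integral_congr (g := fun _ => (0 : ℝ))]
          · simp; linarith
          · intro s hs
            rw [Set.uIcc_of_ge hx0] at hs
            exact hφ0 s hs.2
  · intro δ hδ
    set φ : ℝ → ℝ := fun s => Real.smoothTransition ((s + δ) / (2 * δ)) with hφdef
    have hφ : ContDiff ℝ ∞ φ :=
      Real.smoothTransition.contDiff.comp ((contDiff_id.add contDiff_const).div_const (2 * δ))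
    have hφ0 : ∀ s, s ≤ -δ → φ s = 0 := fun s hs =>
      Real.smoothTransition.zero_of_nonpos
        (div_nonpos_of_nonpos_of_nonneg (by linarith) (by linarith))
    have hφ1 : ∀ s, δ ≤ s → φ s = 1 := fun s hs =>
      Real.smoothTransition.one_of_one_le (by rw [le_div_iff₀ (by linarith)]; linarith)
    have hφn : ∀ s, 0 ≤ φ s := fun s => Real.smoothTransition.nonneg _
    have hφl : ∀ s, φ s ≤ 1 := fun s => Real.smoothTransition.le_one _
    have hφm : Monotone φ := fun s t hst => st_mono (by gcongr)
    have hφs : ∀ s, φ (-s) = 1 - φ s := by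
      intro s
      have : (-s + δ) / (2 * δ) = 1 - (s + δ) / (2 * δ) := by field_simp; ring
      simp only [hφdef, this, st_symm]
    have hd := prim_deriv hφ (-δ)
    have hint : ∀ a b : ℝ, IntervalIntegrable φ volume a b := fun a b =>
      hφ.continuous.intervalIntegrable a b
    have hmid : ∫ s in (-δ)..δ, φ s = δ := by
      have h1 : ∫ s in (-δ)..δ, φ (-s) = ∫ s in (-δ)..δ, φ s := by
        rw [intervalIntegral.integral_comp_neg]; simp
      have h2 : ∫ s in (-δ)..δ, φ (-s) = ∫ s in (-δ)..δ, (1 - φ s) := by
        simp_rw [hφs]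
      rw [h2, intervalIntegral.integral_sub (by simp) (hint _ _)] at h1
      simp at h1
      linarith
    have hlow : ∀ x, x ≤ -δ → ∫ s in (-δ)..x, φ s = 0 := by
      intro x hx
      rw [intervalIntegral.integral_congr (g := fun _ => (0 : ℝ))]
      · simp
      · intro s hs
        rw [Set.uIcc_of_ge hx] at hs
        exact hφ0 s hs.2
    have hhigh : ∀ x, δ ≤ x → ∫ s in (-δ)..x, φ s = x := by
      intro x hx
      rw [← intervalIntegral.integral_add_adjacent_intervals (hint (-δ) δ) (hint δ x), hmid]
      have h2 : ∫ s in δ..x, φ s = x - δ := by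
        rw [intervalIntegral.integral_congr (g := fun _ => (1 : ℝ))]
        · simp
        · intro s hs
          rw [Set.uIcc_of_le hx] at hs
          exact hφ1 s hs.1
      linarith
    have hnn : ∀ x, 0 ≤ ∫ s in (-δ)..x, φ s := by
      intro x
      rcases le_total (-δ) x with hx | hx
      · exact intervalIntegral.integral_nonneg hx (fun s _ => hφn s)
      · rw [hlow x hx]
    have hsub : ∀ x y, x ≤ y → (∫ s in (-δ)..y, φ s) ≤ (∫ s in (-δ)..x, φ s) + (y - x) := by
      intro x y hxy
      rw [← intervalIntegral.integral_add_adjacent_intervals (hint (-δ) x) (hint x y)]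
      have : ∫ s in x..y, φ s ≤ ∫ s in x..y, (1 : ℝ) :=
        intervalIntegral.integral_mono_on hxy (hint _ _) (by simp) (fun s _ => hφl s)
      simp at this
      linarith
    refine ⟨fun x => ∫ s in (-δ)..x, φ s, prim_contDiff hφ (-δ), hlow, hhigh, ?_, ?_, ?_, ?_, ?_⟩
    · intro x; rw [hd]; exact hφn x
    · intro x; rw [hd]; exact hφl x
    · intro x; rw [hd]; exact hφm.deriv_nonneg
    · intro x
      refine max_le ?_ (hnn x)
      rcases le_total δ x with hx | hx
      · exact (hhigh x hx).ge
      · have := hsub x δ hx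
        rw [hmid] at this
        linarith
    · intro x
      have h0 := hsub (-δ) 0 (by linarith)
      rw [hlow (-δ) le_rfl] at h0
      rcases le_total 0 x with hx | hx
      · rw [max_eq_left hx]
        have := hsub 0 x hx
        linarith
      · rw [max_eq_right hx]
        have hmono : (∫ s in (-δ)..x, φ s) ≤ ∫ s in (-δ)..(0 : ℝ), φ s := by
          rw [← intervalIntegral.integral_add_adjacent_intervals (hint (-δ) x) (hint x 0)]
          have := intervalIntegral.integral_nonneg hx (fun s _ => hφn s) (μ := volume)
          linarith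
        linarith

end CMA
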